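import Pool.Agent.TTC.StmtsG

set_option autoImplicit false

/-!
# Squad COV (MP_160b6c_nt), blocks A (algebra) and G (generic curves)

GOAL of the squad: in `AlmostAllGenusTwo` the alternative (thin subgroups) is replaced by `Cov`: the curve
`y^2 = F(x)` has a map of bounded degree to an elliptic curve `y^2 = x (x - 1)(x - j)`; and `Cov` is shown to be
impossible outside a hypersurface of bounded degree in the space of all sextics.

DELIVER: `Pool/Agent/HelperNN_COV/XXX.lean`, `import Pool.Agent.COV.StmtsA` (or B, C ..), namespace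
`Pool.Agent.COV.HNN`, theorem `xxx (hypotheses = the statements of the column uses, in this order) : XxxStmt`.
No straight double quotes, no `congr!`, `convert`, `Qq`, `native_decide`, `notation`, `sorry`.
-/

namespace Pool.Agent.COV

open Polynomial

/-- `P' Q - P Q'` -/
noncomputable def wr {k : Type} [Field k] (P Q : k[X]) : k[X] := derivative P * Q - P * derivative Q

/-- The curve `y² = F(x)` has a nonconstant map to an elliptic curve `y² = x (x - 1)(x - j)`, given by
`x ↦ P/Q`, with `P`, `Q` of degree at most `n`. -/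
def Cov {k : Type} [Field k] (n : ℕ) (F : k[X]) : Prop :=
  ∃ (j : k) (P Q V : k[X]), j ≠ 0 ∧ j ≠ 1 ∧ P.natDegree ≤ n ∧ Q.natDegree ≤ n ∧ wr P Q ≠ 0 ∧
    F * V ^ 2 = P * Q * (P - Q) * (P - C j * Q)

/-- `φ` is a rational function of `θ` -/
def InK {k : Type} [Field k] (θ φ : RatFunc k) : Prop :=
  ∃ N M : k[X], M ≠ 0 ∧ φ * aeval θ M = aeval θ N

/-- the polynomial as a rational function -/
noncomputable def rf {k : Type} [Field k] (P : k[X]) : RatFunc k := algebraMap k[X] (RatFunc k) P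

/-! ## Block A: from the function field to the equation `F V² = P Q (P - Q)(P - j Q)`

`k` is algebraically closed of characteristic 0, `f` is squarefree of degree 5, `P, Q` coprime, `θ = P/Q`,
`W = P' Q - P Q'`. -/

/-- **Row AR1** (reduction to a squarefree equation; medium). PROOF. `f V² M(θ) = N(θ)`, so
`f (V M(θ))² = (N M)(θ)`. Over k the polynomial `N M ≠ 0` is `c H² G` with `G = prod_(λ ∈ S') (X - λ)`, S' = the set of
roots of odd multiplicity; `c = e²`. `V' = V M(θ)/(e H(θ))`: `f V'² = G(θ) = prod_(S') (P - λ Q) / Q^r'`, r' = #S'.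
(θ is not constant as `W ≠ 0`, so `M(θ), H(θ) ≠ 0`.) If r' is even: `A = P`, `B = Q`, `S = S'`, `V₁ = V' Q^(r'/2)`.
If r' is odd: choose μ ∈ k outside S' with `deg (P - μ Q) = max (deg P, deg Q)` (all but one μ); `A = Q`,
`B = P - μ Q`, `S = {0} ∪ {1/(λ - μ) : λ ∈ S'}`: `P - λ Q = (μ - λ)(A - B/(λ - μ))`, so
`Q prod_(S') (P - λ Q) = c' prod_(S) (A - λ B)` and `V₁ = V' Q^((r'+1)/2)/√c'`. `wr A B = - wr P Q`. In both cases
`f V₁²` is a polynomial and f is squarefree, so V₁ has no poles: it is a polynomial (`IsIntegrallyClosed`, or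
unique factorisation: write `V₁ = U/D` reduced, `D² ∣ f`). Last claim: `r = #S`; `V₁ = V u Q^(r/2)` with `u ∈ k(θ)`, and
`B/Q ∈ k(θ) = k(A/B)`; so the element is `(s V Q²/W) u (B/Q)^(2 - r/2)` up to a constant. -/
def Ar1Stmt : Prop :=
  ∀ (k : Type) [Field k] [IsAlgClosed k] [CharZero k] (f s P Q : k[X]) (V : RatFunc k),
    Squarefree f → IsCoprime P Q → wr P Q ≠ 0 → V ≠ 0 → s ≠ 0 →
    InK (rf P / rf Q) (rf f * V ^ 2) →
    InK (rf P / rf Q) (rf s * V * rf Q ^ 2 / rf (wr P Q)) →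
    ∃ (A B V₁ : k[X]) (S : Finset k), IsCoprime A B ∧ wr A B ≠ 0 ∧ Even S.card ∧ V₁ ≠ 0 ∧
      max A.natDegree B.natDegree = max P.natDegree Q.natDegree ∧
      f * V₁ ^ 2 = ∏ l ∈ S, (A - C l * B) ∧
      InK (rf A / rf B) (rf s * rf V₁ * rf B ^ 2 / (rf B ^ (S.card / 2) * rf (wr A B)))

/-- **Row AR2** (at most four branch points; Riemann-Hurwitz by degrees; easy-medium). PROOF. n = max of the
degrees. `V₁ ∣ wr A B`: let `b >= 1` be the multiplicity of a root x₀ of V₁. The factors `A - l B` are pairwise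
coprime, so `(X - x₀)^(2b)` divides one of them (all of `(X - x₀)^(2b) ∣ prod`), and
`wr A B = wr (A - l B) B` is divisible by `(X - x₀)^(2b-1)`, `b <= 2b - 1`. So `deg V₁ <= deg (wr A B)`. (1) If all
`A - l B`, l ∈ S, have degree n: `5 + 2 deg V₁ = r n`, `deg (wr A B) <= 2 n - 2` (leading terms cancel if the
degrees are equal), so `(r - 4) n <= 1`, r <= 4 (r is even). (2) If `A - l B` has degree m < n for some l ∈ S: then
deg B = n, it is the only such l, `5 + 2 deg V₁ = (r-1) n + m`, `deg (wr A B) <= m + n - 1`; so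
`(r - 3) n <= m + 3 <= n + 2`, `(r - 4) n <= 2`, and n >= 2, r even give r <= 4. -/
def Ar2Stmt : Prop :=
  ∀ (k : Type) [Field k] [IsAlgClosed k] [CharZero k] (f A B V₁ : k[X]) (S : Finset k),
    f.natDegree = 5 → Squarefree f → IsCoprime A B → wr A B ≠ 0 → Even S.card → V₁ ≠ 0 →
    2 ≤ max A.natDegree B.natDegree → f * V₁ ^ 2 = ∏ l ∈ S, (A - C l * B) → S.card ≤ 4

/-- **Row NOB** (a differential of the first kind is not exact; easy-medium). PROOF. Write `b` as a rational
function. If b has a pole of order m >= 1 at x₀: if `f(x₀) ≠ 0`, then `f b'` has a pole of order m + 1 and `f' b/2` at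
most m; if `f(x₀) = 0` (simple root), `b = c (x-x₀)^(-m) + ..`: `f' b/2 + f b' = (1/2 - m) c f'(x₀) (x-x₀)^(-m) + ..`,
not regular (`1/2 - m ≠ 0`). So b is a polynomial of degree d, leading coefficient e ≠ 0 (b ≠ 0 as s ≠ 0):
the coefficient of `x^(d+4)` of `f' b/2 + f b'` is `(5/2 + d) e lc(f) ≠ 0`: degree >= 4 > 1. (In the statement
`b = N/D`, multiplied by `2 D²`.) -/
def NobStmt : Prop :=
  ∀ (k : Type) [Field k] [IsAlgClosed k] [CharZero k] (f s N D : k[X]), f.natDegree = 5 →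
    Squarefree f → s ≠ 0 → s.natDegree ≤ 1 → D ≠ 0 →
    2 * s * D ^ 2 ≠ derivative f * N * D + 2 * f * (derivative N * D - N * derivative D)

/-- **Row AR3** (not two branch points; medium; uses NOB). PROOF. `f V₁² = (P - l Q)(P - m Q)`. Put `A = P - l Q`,
`B = P - m Q` (coprime, `wr A B = (l - m) wr P Q` up to sign, `k(A/B) = k(P/Q)`), so `f V₁² = A B` and
`φ = s V₁ B/wr A B = Φ(A/B)` with a rational function Φ = N/M, N, M coprime polynomials (the given element times a
power of Q/B and a constant). `deg A + deg B = 5 + 2 deg V₁` is odd, so `deg A ≠ deg B`. (i) Φ has no pole at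
u ∈ k, u ≠ 0: otherwise let x₀ be a root of `A - u B` (its degree is `max >= 1`), of multiplicity e;
`A B (x₀) ≠ 0`, so `V₁(x₀) ≠ 0`; `wr A B = wr (A - u B) B` has order e - 1 at x₀; so φ has order `>= -(e-1)` at x₀; but
`Φ(A/B)` has order `- μ e <= -e`. (ii) So `M = X^i` up to a constant and `Φ = sum_(finite) c_i X^i`, i ∈ ℤ;
`Ψ = sum 2 c_i X^i/(2i+1)` satisfies `2 X Ψ' + Ψ = 2 Φ`. `b = V₁ Ψ(A/B)/B ∈ k(x)`. CLAIM `s = f' b/2 + f b'`. Formally
`y² = f`, `w = y V₁/B`, `w² = A/B`, `2 w w' = wr A B/B²`, `s/y = 2 Φ(w²) w' = (w Ψ(w²))' = (y b)'`. Without y: put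
`θ = A/B`, `θ' = wr A B/B²`, `f (V₁/B)² = θ`; with `v = V₁/B`: `f' v² + 2 f v v' = θ'`, `b = v Ψ(θ)`,
`f' b/2 + f b' = Ψ (f' v/2 + f v') + f v Ψ'(θ) θ' = Ψ θ'/(2 v) + f v Ψ' θ' = (θ'/(2v)) (Ψ + 2 θ Ψ'(θ)) = Φ(θ) θ'/v = s`.
NOB: contradiction. (Derivative on `RatFunc k`: write quotients of polynomials, or use a derivation of the
fraction field.) -/
def Ar3Stmt : Prop :=
  ∀ (k : Type) [Field k] [IsAlgClosed k] [CharZero k] (f s P Q V₁ : k[X]) (l m : k),
    f.natDegree = 5 → Squarefree f → s ≠ 0 → s.natDegree ≤ 1 → IsCoprime P Q → wr P Q ≠ 0 →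
    V₁ ≠ 0 → l ≠ m → f * V₁ ^ 2 = (P - C l * Q) * (P - C m * Q) →
    ¬ InK (rf P / rf Q) (rf s * rf V₁ * rf Q ^ 2 / (rf Q * rf (wr P Q)))

/-- **Row AR4** (Legendre form; easy). PROOF. `α = b - c`, `β = a - c`, `P₁ = α (P - a Q)`, `Q₁ = β (P - b Q)`,
`P₁ - Q₁ = (b - a)(P - c Q)`, `j = (b-c)(a-d)/((a-c)(b-d))`, `P₁ - j Q₁ = (unit) (P - d Q)`; j ≠ 0, and
`j = 1` iff `(b-c)(a-d) = (a-c)(b-d)` iff `(a-b)(c-d) = 0`. The product is `κ f V₁²`, κ ≠ 0, `V = √κ V₁`;
`wr P₁ Q₁ = α β (a - b) wr P Q` up to sign. -/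
def Ar4Stmt : Prop :=
  ∀ (k : Type) [Field k] [IsAlgClosed k] [CharZero k] (f P Q V₁ : k[X]) (a b c d : k), a ≠ b →
    a ≠ c → a ≠ d → b ≠ c → b ≠ d → c ≠ d → wr P Q ≠ 0 →
    f * V₁ ^ 2 = (P - C a * Q) * (P - C b * Q) * (P - C c * Q) * (P - C d * Q) →
    Cov (max P.natDegree Q.natDegree) f

/-- **Row ALG** (uses AR1, AR2, AR3, AR4; easy). PROOF. AR1, AR2: r = #S is 0, 2 or 4. r = 0: `f V₁² = 1` is
impossible (degree 5 + ..). r = 2: AR3. r = 4: AR4. -/
def AlgStmt : Prop :=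
  ∀ (k : Type) [Field k] [IsAlgClosed k] [CharZero k] (f s P Q : k[X]) (V : RatFunc k),
    f.natDegree = 5 → Squarefree f → s ≠ 0 → s.natDegree ≤ 1 → IsCoprime P Q → wr P Q ≠ 0 →
    2 ≤ max P.natDegree Q.natDegree → V ≠ 0 →
    InK (rf P / rf Q) (rf f * V ^ 2) →
    InK (rf P / rf Q) (rf s * V * rf Q ^ 2 / rf (wr P Q)) →
    Cov (max P.natDegree Q.natDegree) f

/-! ## Block G: a sextic with algebraically independent coefficients has no such map

`δ` is a derivation of the field k, `pd δ P` is P with δ applied to the coefficients. -/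

/-- δ applied to the coefficients -/
noncomputable def pd {k : Type} [Field k] [Algebra ℚ k] (δ : Derivation ℚ k k) (P : k[X]) : k[X] :=
  P.sum fun n a => C (δ a) * X ^ n

/-- **Row GPD** (easy). PROOF. `coeff (pd δ P) n = δ (coeff P n)`; products: `Polynomial.coeff_mul`, Leibniz. -/
def GpdStmt : Prop :=
  ∀ (k : Type) [Field k] [Algebra ℚ k] (δ : Derivation ℚ k k) (P Q : k[X]),
    (∀ n, (pd δ P).coeff n = δ (P.coeff n)) ∧ pd δ (P + Q) = pd δ P + pd δ Q ∧
    pd δ (P - Q) = pd δ P - pd δ Q ∧ pd δ (P * Q) = pd δ P * Q + P * pd δ Q ∧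
    pd δ (derivative P) = derivative (pd δ P) ∧ ∀ c : k, δ c = 0 → pd δ (C c) = 0

/-- **Row GCP** (coprime P, Q; easy-medium). PROOF. `D = gcd P Q`, `P = D P₁`, `Q = D Q₁`. `D⁴ ∣ F V²`, F squarefree:
for every prime π with exponent a in D: `4 a <= v(F) + 2 v(V) <= 1 + 2 v(V)`, so `v(V) >= 2 a`: `D² ∣ V`. Divide by `D⁴`.
`wr P Q = D² wr P₁ Q₁`. -/
def GcpStmt : Prop :=
  ∀ (k : Type) [Field k] [CharZero k] (n : ℕ) (F : k[X]), Squarefree F → Cov n F →
    ∃ (j : k) (P Q V : k[X]), j ≠ 0 ∧ j ≠ 1 ∧ P.natDegree ≤ n ∧ Q.natDegree ≤ n ∧ IsCoprime P Q ∧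
      wr P Q ≠ 0 ∧ V ≠ 0 ∧ F * V ^ 2 = P * Q * (P - Q) * (P - C j * Q)

/-- **Row GWR** (the differential; easy-medium). PROOF. As AR2: `V ∣ wr P Q` (the four factors are pairwise coprime,
`wr P Q = ± wr ℓ ℓ'` up to a constant for any two of them). Put `wr P Q = s V`. n' = max of the degrees. Either all four
factors have degree n': `6 + 2 deg V = 4 n'`, `deg wr <= 2 n' - 2`, `deg s <= 1`; or exactly one has degree m < n':
`6 + 2 deg V = 3 n' + m`, `deg wr <= m + n' - 1`, `deg s <= (m - n' + 4)/2 < 2`. -/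
def GwrStmt : Prop :=
  ∀ (k : Type) [Field k] [IsAlgClosed k] [CharZero k] (F P Q V : k[X]) (j : k), F.natDegree = 6 →
    Squarefree F → IsCoprime P Q → wr P Q ≠ 0 → V ≠ 0 → j ≠ 0 → j ≠ 1 →
    F * V ^ 2 = P * Q * (P - Q) * (P - C j * Q) →
    ∃ s : k[X], s ≠ 0 ∧ s.natDegree ≤ 1 ∧ wr P Q = s * V

/-- **Row GID** (the identity; medium; uses GPD). PROOF. `G = P Q (P - Q)(P - j Q)`, a quartic form, partial
derivatives `G_P, G_Q`, `P G_P + Q G_Q = 4 G`. Write d for `pd δ`, a dash for the derivative, `N = dP Q - P dQ`,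
`W = wr P Q = s V`, `d s = 0`, `dj = 0`. (x) `F' V² + 2 F V V' = G_P P' + G_Q Q'`; (δ)
`dF V² + 2 F V dV = G_P dP + G_Q dQ`; `W dP - N P' = P (P' dQ - Q' dP)`, `W dQ - N Q' = Q (P' dQ - Q' dP)`;
`dW = s dV`; `N' - dW = 2 (dP Q' - P' dQ)`. Then
`V (V² s dF - (N V F' - 2 (N' V - N V') F)) = W (G_P dP + G_Q dQ) - 2 F V² s dV - N (G_P P' + G_Q Q') + 2 F N' V²
= 4 F V² (P' dQ - Q' dP) + 2 F V² (N' - dW) = 0` (`linear_combination`). Cancel V ≠ 0. -/
def GidStmt : Prop :=
  ∀ (k : Type) [Field k] [Algebra ℚ k] (δ : Derivation ℚ k k) (F P Q V s : k[X]) (j : k),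
    V ≠ 0 → F * V ^ 2 = P * Q * (P - Q) * (P - C j * Q) → wr P Q = s * V → δ j = 0 →
    pd δ s = 0 →
    V ^ 2 * s * pd δ F =
      (pd δ P * Q - P * pd δ Q) * V * derivative F -
        2 * (derivative (pd δ P * Q - P * pd δ Q) * V -
          (pd δ P * Q - P * pd δ Q) * derivative V) * F

/-- **Row GPO** (the quotient is a polynomial; medium). PROOF. `R = N/V`: `s D = R F' - 2 R' F`. If R has a pole of
order m >= 1 at x₀: `F(x₀) ≠ 0`: `R' F` has a pole of order m + 1, `R F'` at most m; `F(x₀) = 0`: the coefficient of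
`(x - x₀)^(-m)` of `R F' - 2 R' F` is `(1 + 2 m) c F'(x₀) ≠ 0`. Both contradict that `s D` is a polynomial. So R is a
polynomial; if its degree is r > 3, the coefficient of `x^(r+5)` of `R F' - 2 R' F` is `(6 - 2 r) lc lc ≠ 0`, but
`deg (s D) <= 7 < r + 5`. -/
def GpoStmt : Prop :=
  ∀ (k : Type) [Field k] [IsAlgClosed k] [CharZero k] (F N V s D : k[X]), F.natDegree = 6 →
    Squarefree F → V ≠ 0 → s.natDegree ≤ 1 → D.natDegree ≤ 6 →
    V ^ 2 * s * D = N * V * derivative F - 2 * (derivative N * V - N * derivative V) * F →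
    ∃ R : k[X], R.natDegree ≤ 3 ∧ s * D = R * derivative F - 2 * derivative R * F

/-- **Row GDI** (dimension 3; easy-medium). PROOF. The R i are in the 4-dimensional space of polynomials of
degree <= 3 and in the kernel of a nonzero linear functional λ: if s has a root x₁: `λ(R) = R(x₁) F'(x₁) - 2 R'(x₁) F(x₁)`
(`λ(X - x₁) = -2 F(x₁)`, or `λ(1) = F'(x₁) ≠ 0` if `F(x₁) = 0`); if s is constant: λ(R) = coefficient of `x^7` of
`R F' - 2 R' F`, which is `2 F_6 R_2 - F_5 R_3` (`deg (s D) <= 6`). So the four R i are linearly dependent,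
`sum c_i R_i = 0`, `s sum c_i D_i = 0`. -/
def GdiStmt : Prop :=
  ∀ (k : Type) [Field k] [CharZero k] [IsAlgClosed k] (F s : k[X]) (D R : Fin 4 → k[X]),
    F.natDegree = 6 → Squarefree F → s ≠ 0 → s.natDegree ≤ 1 →
    (∀ i, (D i).natDegree ≤ 6 ∧ (R i).natDegree ≤ 3 ∧
      s * D i = R i * derivative F - 2 * derivative (R i) * F) →
    ∃ c : Fin 4 → k, c ≠ 0 ∧ ∑ i, C (c i) * D i = 0

/-- **Row GDR** (derivations; medium-strong). PROOF. `K₁ = ℚ(b 0, b 1, b 2) ⊆ L` has transcendence degree <= 3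
over ℚ, so at least 4 of the seven a i (transcendence degree of `K₁(a)` over `K₁` is >= 7 - 3) are algebraically
independent over K₁: choose a maximal subset of the a i which is algebraically independent over K₁; if it had <= 3
elements, then a, algebraic over `K₁(subset)`, of transcendence degree <= 6 over ℚ: contradiction. Extend the
four elements to a transcendence basis of L over K₁ (`exists_isTranscendenceBasis..`). On `K₁(basis)` (fraction field of
a polynomial ring) take `∂/∂a_(e i)` (`MvPolynomial.pderiv`, extended to the fraction field), and extend it to L, which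
is algebraic over it, char 0 (unique extension; Mathlib: Differential / Kaehler of separable algebraic extensions are
zero, `Algebra.FormallyEtale`, or Zorn + minimal polynomial). Everything in K₁ is killed. -/
def GdrStmt : Prop :=
  ∀ (L : Type) [Field L] [Algebra ℚ L] [IsAlgClosed L] (a : Fin 7 → L) (b : Fin 3 → L),
    AlgebraicIndependent ℚ a →
    ∃ (e : Fin 4 → Fin 7) (δ : Fin 4 → Derivation ℚ L L),
      (∀ i l, δ i (b l) = 0) ∧ ∀ i m, δ i (a (e m)) = if i = m then 1 else 0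

/-- **Row GSQ** (easy; uses TTC.Na6Stmt, TTC.Cr6Stmt). PROOF. `d6` is a polynomial with integer coefficients in the
a i (NA6 for `MvPolynomial (Fin 7) ℤ → L`, X i ↦ a i), not zero because its value for `x^6 - 1` is not zero (CR6 in ℂ;
`x^6 - 1` has no multiple root). So `d6 a ≠ 0` in L; a 0 ≠ 0; CR6: no common root of F and F': squarefree. -/
def GsqStmt : Prop :=
  ∀ (L : Type) [Field L] [Algebra ℚ L] [IsAlgClosed L] (a : Fin 7 → L), AlgebraicIndependent ℚ a →
    (TTC.sext a).natDegree = 6 ∧ Squarefree (TTC.sext a)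

/-- **Row GNC** (uses GPD, GCP, GWR, GID, GPO, GDI, GDR, GSQ; easy-medium). PROOF. F = sext a, GSQ. Suppose Cov; GCP,
GWR: s. GDR for b = (j, s_0, s_1) (coefficients of s): δ_i, `pd (δ i) s = 0`. GID, GPO with `D i = pd (δ i) F`
(degree <= 6): R i. GDI: `sum c_i D_i = 0`, c ≠ 0. The coefficient of F belonging to `a (e m)` is `a (e m)` (position
`6 - e m`), so the coefficient of the sum there is `sum_i c_i δ_i (a (e m)) = c_m`: all c_m are 0, contradiction. -/
def GncStmt : Prop :=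
  ∀ (L : Type) [Field L] [Algebra ℚ L] [IsAlgClosed L] (a : Fin 7 → L), AlgebraicIndependent ℚ a →
    ∀ n : ℕ, ¬ Cov n (TTC.sext a)

/-- **Row GEL** (elimination; medium-strong; uses GNC). PROOF. Unknowns: the coefficients of P, Q (degree <= n), of V
(degree <= 2n), j and one more τ; let `Z = MvPolynomial (Fin 7 ⊕ unknowns) ℚ`, A = MvPolynomial (Fin 7) ℚ → Z. For
i <= 2n let I_i be the ideal of Z generated by the coefficients of `F V² - P Q (P - Q)(P - j Q)` and
`1 - τ j (j - 1) w_i`, w_i = the i-th coefficient of `P' Q - P Q'`. CLAIM: I_i contains the image of some R_i ≠ 0 of A.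
Otherwise `A → Z/I_i` is injective, A is a domain, so there is a prime q of `Z/I_i` whose inverse image in A is 0
(`Ideal.exists_comap_eq_of_mem_minimalPrimes_of_injective` or similar: minimal primes lift along injective maps);
L = algebraic closure of the fraction field of `(Z/I_i)/q`: the images a of the seven variables are algebraically
independent over ℚ and `Cov n (sext a)` holds in L: contradiction to GNC. `R = prod_i R_i`, cleared denominators
(multiply by an integer). If `Cov n (sext a)` holds for a complex a, then `deg V <= 2n` if `sext a ≠ 0` (compare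
degrees in `F V² = ..`); if `sext a = 0` replace V by 0; some w_i ≠ 0; evaluation at the solution is a ring homomorphism
`Z → ℂ` which kills I_i, so `R_i(a) = 0`. -/
def GelStmt : Prop :=
  ∀ n : ℕ, ∃ R : MvPolynomial (Fin 7) ℤ, R ≠ 0 ∧ ∀ a : Fin 7 → ℂ, Cov n (TTC.sext a) →
    MvPolynomial.aeval a R = 0

/-- **Row GBX** (points of a box; uses GEL, TTC.SzbStmt; easy-medium). PROOF. R from GEL, `M = deg R * k * 3^(m+1)`.
`R' = aeval F R ∈ ℤ[t]` is not 0 (algebraic independence), total degree `<= deg R * k`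
(`MvPolynomial.aeval` of a polynomial of total degree D at polynomials of total degree <= k), and
`R'(t) = R(F(t)) = 0` for all t of the set. SZB for R' mapped to ℂ, `S j = T j`, `τ = T i₀`:
`T i₀ * number <= deg R' * prod (2 T_j + 1) <= deg R' * 3^(m+1) prod T_j`. -/
def GbxStmt : Prop :=
  ∀ n k m : ℕ, ∃ M : ℕ, ∀ (F : Fin 7 → MvPolynomial (Fin (m + 1)) ℤ) (T : Fin (m + 1) → ℕ)
    (i₀ : Fin (m + 1)), (∀ i, 1 ≤ T i ∧ T i₀ ≤ T i) → (∀ i, (F i).totalDegree ≤ k) →
    AlgebraicIndependent ℤ F →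
    {t : Fin (m + 1) → ℤ | (∀ i, |t i| ≤ (T i : ℤ)) ∧
      Cov n (TTC.sext fun i => ((MvPolynomial.eval t (F i) : ℤ) : ℂ))}.ncard * T i₀ ≤ M * ∏ i, T i

end Pool.Agent.COV
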