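import Pool.Agent.COV.StmtsA
import Pool.Agent.KDT.StmtsZ

set_option autoImplicit false

/-!
# Squad COV (MP_160b6c_nt), block B (groups): an infinite stabiliser gives a map to an elliptic curve

Setting and notation of `Pool/Agent/KDT/DefsZ.lean` (all rows of KDT are PROVED, see the table kdt and the column uses).
`q` is a generic Mumford vector over U, `c₀ = cl q`, `H₀` = the elements of `Jk` which stabilise the curve of q,
`D(k)` = the vectors `t` over k with `On f t`, `Spc q t`; `t₀ ∈ D(k)` is fixed. For `t` over k write `[t]` for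
`cl (emb U t)`, which is in `Jk` (`mem_k`). `Θ` = the set `Tht th` (0 and the points `th z`); `Θ = -Θ` (`th_neg`).

Facts used without mention: (*) if `c ∈ Jk`, `c = cl x`, `On g x`, then `x = emb U t` with `On f t` (`mem_k`, `cl_ne`,
`cl_th`, `cl_inj`). (a) `rr`, `ro` are symmetric (CMA (1)); EMB: `rr (emb q) (emb t) = algebraMap (rr q t)` etc. (b)
`VV k q (emb U t)` iff `Spc q t`. (c) g = f.map is monic of degree 5, squarefree. (d) a root in U of a nonzero polynomial over k is in k.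
-/

namespace Pool.Agent.COV

open Polynomial Pool.Agent.KDT.Z

/-! ### definitions -/

/-- `y` satisfies all the equations over `k` of `q` -/
def VV (k : Type) {U : Type} [Field k] [Field U] [Algebra k U] (q y : Fin 4 → U) : Prop :=
  ∀ G : MvPolynomial (Fin 4) k, MvPolynomial.aeval q G = 0 → MvPolynomial.aeval y G = 0

/-- `P h` holds for generic `h ∈ H0`: for all h such that finitely many translates `x + h` are not in `Θ` -/
def Gn {F J : Type} [Field F] {f : F[X]} [AddCommGroup J] (th : Pt f → J) (H0 : AddSubgroup J)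
    (P : J → Prop) : Prop :=
  ∃ C : Finset J, ∀ h ∈ H0, (∀ x ∈ C, ¬ Tht th (x + h)) → P h

/-- `z, w` are the two points of `q` -/
def Pts {F : Type} [Field F] {f : F[X]} (q : Fin 4 → F) (z w : Pt f) : Prop :=
  pA q = (X - C z.a) * (X - C w.a) ∧ (pB q).eval z.a = z.b ∧ (pB q).eval w.a = w.b

section two

variable {k U : Type} [Field k] [Field U] [Algebra k U]

/-- the situation of the group part -/
structure Ctx (f : k[X]) (g : U[X]) (J : Type) [AddCommGroup J] (th : Pt g → J)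
    (cl : (Fin 4 → U) → J) (act : (U ≃ₐ[k] U) → J →+ J) (Jk : AddSubgroup J) (q : Fin 4 → U)
    (H0 : AddSubgroup J) (t0 : Fin 4 → k) : Prop where
  env : Env k U f g
  jk : JK f g J th cl act Jk
  on : On g q
  gn : Gnr k q
  q4 : q 0 ^ 2 ≠ 4 * q 1
  h0 : ∀ h, h ∈ H0 ↔ h ∈ Jk ∧ h ∈ Stb cl act q
  inf : (H0 : Set J).Infinite
  ot : On f t0
  sp : Spc q t0

/-- `c` translates the curve (of q) to itself -/
def HH (g : U[X]) {J : Type} [AddCommGroup J] (th : Pt g → J) (cl : (Fin 4 → U) → J)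
    (q : Fin 4 → U) (H0 : AddSubgroup J) (t0 : Fin 4 → k) (c : J) : Prop :=
  Gn th H0 fun h => ∃ y : Fin 4 → U, On g y ∧ VV k q y ∧ cl y = c + cl (emb U t0) + h

/-- a derivation of U over k with kernel k (then `d (σ a) = u σ (d a)`) -/
def Dgd (d : Derivation k U U) : Prop :=
  (∀ u : U, d u = 0 ↔ u ∈ (algebraMap k U).range) ∧
  ∀ σ : U ≃ₐ[k] U, ∃ u : U, u ≠ 0 ∧ ∀ a, d (σ a) = u * σ (d a)

/-- `s(x) dx/y` at the point z -/
noncomputable def om (d : Derivation k U U) (s : k[X]) {g : U[X]} (z : Pt g) : U :=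
  aeval z.a s * d z.a / z.b

/-- the output of the group part: the subgroup `H` of the points of an elliptic curve -/
structure Ell (g : U[X]) {J : Type} [AddCommGroup J] (th : Pt g → J) (act : (U ≃ₐ[k] U) → J →+ J)
    (Jk H : AddSubgroup J) (d : Derivation k U U) (s : k[X]) (n : ℕ) : Prop where
  st : ∀ (σ : U ≃ₐ[k] U) (c : J), c ∈ H → act σ c ∈ H
  nc : ∃ z w : Pt g, th z + th w ∈ H ∧ th z + th w ∉ Jk
  s0 : s ≠ 0
  sd : s.natDegree ≤ 1
  dg : Dgd d
  h4 : ∀ z w : Pt g, th z + th w ∈ H → om d s z + om d s w = 0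
  h2 : ∃ Φ : MvPolynomial (Fin 2) k, Φ ≠ 0 ∧ Φ.totalDegree ≤ n ∧
    ∀ z w : Pt g, th z + th w ∈ H → th z + th w ∉ Jk → Zr Φ (z.a + w.a) (z.a * w.a)

end two

/-! ### good position -/

/-- **Row PRS** (pairs of points; easy-medium). PROOF. (1) roots a, a' of `A_q` in F (closed), `z = (a, B_q(a))`,
`w = (a', B_q(a'))` (`A_q ∣ B_q² - f`), `split`. (2) If `z.a ≠ w.a`: B = the interpolation polynomial (degree <= 1),
`A = (X - z.a)(X - w.a)` divides `B² - f` (simple roots), q from A, B; `split`. If `z.a = w.a`: `w.b = ± z.b`; `w = z.neg`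
is impossible (sum 0 by `th_neg`), so w = z and `b = z.b ≠ 0`; `B = b + (f'(a)/(2b))(X - a)`: `(X - a)² ∣ B² - f`. -/
def PrsStmt : Prop :=
  ∀ (F : Type) [Field F] [IsAlgClosed F] [CharZero F] (f : F[X]) (J : Type) [AddCommGroup J]
    (th : Pt f → J) (cl : (Fin 4 → F) → J), JG f J th cl →
    (∀ q, On f q → ∃ z w : Pt f, Pts q z w ∧ cl q = th z + th w) ∧
    ∀ z w : Pt f, th z + th w ≠ 0 → ∃ q, On f q ∧ Pts q z w ∧ cl q = th z + th w

/-- **Row IGD** (infinitely many good h; medium). PROOF. `S_i = {h ∈ H₀ : Tht (c i + h)}`. Suppose the set is finite.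
Choose m + 1 distinct elements `δ_0 .. δ_m` of H₀. For all h ∈ H₀ outside a finite set every `h + δ_a` is in some `S_i`,
so (pigeonhole) there are a ≠ b, i with `h + δ_a, h + δ_b ∈ S_i`; the same (a, b, i) for infinitely many h. Excluding
two h: `c_i + h + δ_a = th z_h`, `c_i + h + δ_b = th z'_h`, so `δ_a - δ_b = th z_h + th (z'_h.neg) ≠ 0`; by `th_pair`
z_h takes at most two values, but `th z_h = c_i + h + δ_a` are different for different h. Contradiction. -/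
def IgdStmt : Prop :=
  ∀ (F : Type) [Field F] (f : F[X]) (J : Type) [AddCommGroup J] (th : Pt f → J)
    (cl : (Fin 4 → F) → J), JG f J th cl → ∀ H0 : AddSubgroup J, (H0 : Set J).Infinite →
    ∀ C : Finset J, {h : J | h ∈ H0 ∧ ∀ x ∈ C, ¬ Tht th (x + h)}.Infinite

/-- **Row GHI** (good position is generic; easy-medium; see the proof of KDT row CNB). PROOF. z_t, w_t = the points of t
(PRS (1)). C = {c, c - th z (z = z_t, w_t and their .neg), c + cl t}. c + h is not in Θ, so `c + h = cl q` (`cover`). If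
`rr q t = 0`: A_q and A_t have a common root a (`rr q t` = product of the values of A_q at the roots of A_t; or CMA); z = (a, B_q(a))
is a point of q, w the other one: `cl q = th z + th w`; `B_q(a)² = f(a) = B_t(a)²`, so z is one of the four points;
`(c - th z) + h = th w ∈ Θ`: excluded. If `rr ≠ 0`, `ro = 0`: `exc`: `(c + cl t) + h ∈ Θ`: excluded. -/
def GhiStmt : Prop :=
  ∀ (F : Type) [Field F] [IsAlgClosed F] [CharZero F] (f : F[X]) (J : Type) [AddCommGroup J]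
    (th : Pt f → J) (cl : (Fin 4 → F) → J), JG f J th cl →
    ∀ (c : J) (t : Fin 4 → F), On f t →
    ∃ C : Finset J, ∀ h : J, (∀ x ∈ C, ¬ Tht th (x + h)) → KDT.Z.Good f cl (c + h) t

/-- **Row GNL** (rules for Gn; easy; uses IGD). PROOF. Union of the two finite sets; translate C by h1; `-C` (`x - h ∈ Θ`
iff `-x + h ∈ Θ`, `th_neg`); IGD. -/
def GnlStmt : Prop :=
  ∀ (F : Type) [Field F] (f : F[X]) (J : Type) [AddCommGroup J] (th : Pt f → J)
    (cl : (Fin 4 → F) → J), JG f J th cl → ∀ H0 : AddSubgroup J,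
    (∀ P Q : J → Prop, Gn th H0 P → Gn th H0 Q → Gn th H0 fun h => P h ∧ Q h) ∧
    (∀ (P : J → Prop) (h1 : J), h1 ∈ H0 → Gn th H0 P → Gn th H0 fun h => P (h + h1)) ∧
    (∀ P : J → Prop, Gn th H0 P → Gn th H0 fun h => P (-h)) ∧
    ((H0 : Set J).Infinite → ∀ P : J → Prop, Gn th H0 P → {h : J | h ∈ H0 ∧ P h}.Infinite)

/-! ### specialisations -/

/-- **Row ZFU** (a polynomial with infinitely many zeros on the curve; medium). PROOF. (1) G over k. Suppose
`δ = G(q) ≠ 0`. If δ ∈ k: `G - δ` vanishes at q, so `G(t) = δ` for all t with `Spc q t`: no zeros. If δ ∉ k: every `q i` is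
algebraic over k(δ) (`Env.td`), so there is `P_i ∈ k[Y][X]` not divisible by Y with `P_i(δ, q i) = 0` (clear
denominators, cancel powers of Y). Specialise: `P_i(G(t), t i) = 0`; if `G(t) = 0`, then t i is a root of the nonzero
polynomial `P_i(0, X)`: finitely many t. So G(q) = 0. (2) General G: e_l = a k-basis of U, `G = sum e_l G_l` (finite), G_l
over k; for t over k `G(t) = sum e_l G_l(t) = 0` iff all G_l(t) = 0. By (1) all G_l(q) = 0, so G_l(y) = 0, G(y) = 0. -/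
def ZfuStmt : Prop :=
  ∀ (k U : Type) [Field k] [Field U] [Algebra k U] (f : k[X]) (g : U[X]), Env k U f g →
    ∀ (q : Fin 4 → U) (G : MvPolynomial (Fin 4) U),
    {t : Fin 4 → k | Spc q t ∧ MvPolynomial.eval (emb U t) G = 0}.Infinite →
    ∀ y : Fin 4 → U, VV k q y → MvPolynomial.eval y G = 0

/-- **Row GNX** (nonconstant points are generic; medium). PROOF. Kernels of `k[X_0..X_3] → U` at q and y: equal. Let
G(y) = 0 and suppose `δ = G(q) ≠ 0`. If δ ∈ k: `G(y) = δ ≠ 0`. If δ ∉ k: P_i as in ZFU; `P_i(0, y i) = P_i(G(y), y i) = 0`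
(VV), so all y i are algebraic over k, in k: contradiction. So `k[q] ≅ k[y]`, q i ↦ y i, extends to the fraction
fields and to U, which is an algebraic closure of both (as in KDT row EXT; some y i ∉ k, and q i ∉ k because otherwise
`X_i - q i` would vanish at y). -/
def GnxStmt : Prop :=
  ∀ (k U : Type) [Field k] [Field U] [Algebra k U] (f : k[X]) (g : U[X]), Env k U f g →
    ∀ q y : Fin 4 → U, VV k q y → (∃ i, y i ∉ (algebraMap k U).range) →
    ∃ σ : U ≃ₐ[k] U, ∀ i, σ (q i) = y i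

/-- **Row TRV** (translation by w; uses KDT CPP, SUB, ZFU; easy-medium; see KDT row TRS). PROOF. `G(q2) = 0`, M = total
degree of G. CPP over F = U for f4, `t := w`: N, D over U (`emb U w = w` for `E = U`). SUB for G mapped to U, `m = 4`: `G'` over
U with `G'(x) = D(x)^M G(cmp x w)` if `D(x) ≠ 0`. `G'` vanishes at the infinitely many t, so (ZFU for q1) at y; divide
by `D(y)^M`. -/
def TrvStmt : Prop :=
  ∀ (k U : Type) [Field k] [Field U] [Algebra k U] (f : k[X]) (g : U[X]), Env k U f g →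
    ∀ (f4 : U) (q1 q2 w : Fin 4 → U),
    {t : Fin 4 → k | Spc q1 t ∧ rr (emb U t) w ≠ 0 ∧ ro (emb U t) w ≠ 0 ∧
      VV k q2 (cmp f4 (emb U t) w)}.Infinite →
    ∀ y : Fin 4 → U, VV k q1 y → rr y w ≠ 0 → ro y w ≠ 0 → VV k q2 (cmp f4 y w)

/-! ### the subgroup -/

/-- **Row HSA** (uses GHI, GNL, KDT HSP, CMA, EMB; easy-medium). PROOF. For generic h (GHI for c = 0, t = q and for c = 0,
t = emb t₀): h ∈ Jk ∩ Stb, `Good g cl h q`, `Good g cl h (emb t₀)`. By (*) h = [t], `rr q (emb t) ≠ 0`, `ro ≠ 0`,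
`rr t₀ t ≠ 0`, `ro ≠ 0`: HSP with t' = t₀: `cmp (f.coeff 4) t₀ t`. -/
def HsaStmt : Prop :=
  ∀ (k U : Type) [Field k] [Field U] [Algebra k U] (f : k[X]) (g : U[X]) (J : Type)
    [AddCommGroup J] (th : Pt g → J) (cl : (Fin 4 → U) → J) (act : (U ≃ₐ[k] U) → J →+ J)
    (Jk : AddSubgroup J) (q : Fin 4 → U) (H0 : AddSubgroup J) (t0 : Fin 4 → k),
    Ctx f g J th cl act Jk q H0 t0 →
    Gn th H0 fun h => ∃ t : Fin 4 → k, On f t ∧ Spc q t ∧ cl (emb U t) = cl (emb U t0) + h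

/-- **Row HAD** (addition; uses GHI, GNL, TRV, HSA; medium). PROOF. (1) choose h₂ ∈ H₀ with c' + h₂ ∉ Θ (GNL (4)):
`c' + h₂ = cl w` (`cover`). (2) For generic h': t with `[t] = [t₀] + h'` (HSA); y with `VV q y`,
`cl y = c' + [t₀] + (h' + h₂)` (HH c', GNL (2)); `Good g cl ([t₀] + h') w` (GHI): so `rr (emb t) w ≠ 0`, `ro ≠ 0` (`cl_inj`),
`cl (cmp (emb t) w) = [t] + cl w = cl y` (`comp`), `cmp (emb t) w = y`. Infinitely many h', so infinitely many t: TRV
(q1 = q2 = q) applies. (3) For generic h: y₁ with `VV q y₁`, `cl y₁ = c + [t₀] + (h - h₂)` (HH c), in good position to w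
(GHI for `c + [t₀] - h₂`, w): `cmp y₁ w` is the required vector: its class is `c + c' + [t₀] + h`. -/
def HadStmt : Prop :=
  ∀ (k U : Type) [Field k] [Field U] [Algebra k U] (f : k[X]) (g : U[X]) (J : Type)
    [AddCommGroup J] (th : Pt g → J) (cl : (Fin 4 → U) → J) (act : (U ≃ₐ[k] U) → J →+ J)
    (Jk : AddSubgroup J) (q : Fin 4 → U) (H0 : AddSubgroup J) (t0 : Fin 4 → k),
    Ctx f g J th cl act Jk q H0 t0 → ∀ c c' : J, HH g th cl q H0 t0 c → HH g th cl q H0 t0 c' →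
    HH g th cl q H0 t0 (c + c')

/-- **Row HRE** (the shape of the elements; uses GNX, GNL; easy). PROOF. Some h ∈ H₀ (GNL (4)) has y with `On g y`,
`VV q y`, `cl y = c + [t₀] + h`. `c ∉ Jk`, so `cl y ∉ Jk`, so y is not `emb t` (`On f t` by EMB, then `[t] ∈ Jk`): some y i ∉ k. GNX:
y = σ q, `cl y = act σ (cl q)` (`act_cl`). -/
def HreStmt : Prop :=
  ∀ (k U : Type) [Field k] [Field U] [Algebra k U] (f : k[X]) (g : U[X]) (J : Type)
    [AddCommGroup J] (th : Pt g → J) (cl : (Fin 4 → U) → J) (act : (U ≃ₐ[k] U) → J →+ J)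
    (Jk : AddSubgroup J) (q : Fin 4 → U) (H0 : AddSubgroup J) (t0 : Fin 4 → k),
    Ctx f g J th cl act Jk q H0 t0 → ∀ c : J, HH g th cl q H0 t0 c → c ∉ Jk →
    ∃ σ : U ≃ₐ[k] U, ∃ h ∈ H0, c = act σ (cl q) - cl (emb U t0) - h

/-- **Row HNG** (the main step of the negation; uses GHI, GNL, TRV, HSA, KDT CMA, EMB; medium). PROOF. `-c₀ = cl (ngv q)`
(`cl_ngv`). For generic h' (GHI for `c = 2 [t₀]`, t = ngv q): `2 [t₀] + h' = cl x`, in good position to `ngv q`; it is in Jk, so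
x = emb v, On f v. `y = cmp (ngv q) (emb v)` has class `2 [t₀] + h' - c₀`. CLAIM `VV q y`: TRV with `q1 = ngv q`, `q2 = q`,
`w = emb v`, `y := ngv q`. For generic h'': t₂ with `[t₂] = [t₀] + h''`, `Spc q t₂` (HSA), t₃ with
`[t₃] = [t₀] + (h' - h'')`, `Spc q t₃` (HSA, GNL (2), (3)), `Good g cl (-[t₀] - h'') (emb v)` (GHI, GNL (3)). t = ngv t₂:
`Spc (ngv q) t` (substitute `X_2 ↦ -X_2`, `X_3 ↦ -X_3`), `[t] = -[t₂]`; `cl (cmp (emb t) (emb v)) = -[t₂] + 2 [t₀] + h' = [t₃]`,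
so `cmp (emb t) (emb v) = emb t₃`. Infinitely many t. -/
def HngStmt : Prop :=
  ∀ (k U : Type) [Field k] [Field U] [Algebra k U] (f : k[X]) (g : U[X]) (J : Type)
    [AddCommGroup J] (th : Pt g → J) (cl : (Fin 4 → U) → J) (act : (U ≃ₐ[k] U) → J →+ J)
    (Jk : AddSubgroup J) (q : Fin 4 → U) (H0 : AddSubgroup J) (t0 : Fin 4 → k),
    Ctx f g J th cl act Jk q H0 t0 →
    Gn th H0 fun h => ∃ y : Fin 4 → U, On g y ∧ VV k q y ∧
      cl y = cl (emb U t0) + cl (emb U t0) + h - cl q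

/-- **Row HGR** (H is a group; uses HSA, HAD, HRE, HNG, GNL; easy-medium). PROOF. 0: HSA. Sum: HAD. act σ: if
`On g y`, `VV q y`, then the same for σ y, `cl (σ y) = act σ (cl y)`; σ fixes [t₀], h ∈ Jk; for C take its image under
act σ: `Tht (x + h)` implies `Tht (act σ (x + h))`, `act σ (x + h) = act σ x + h`. `H₀ ≤ H`: HSA shifted by h (GNL (2)). `c₁ = c₀ - [t₀]`: `c₁ + [t₀] + h = c₀ + h =
act τ (cl q) = cl (τ q)` for every h ∈ H₀ (h0). Negation: c ∉ Jk: HRE: `c = act σ c₀ - [t₀] - h`, so `-c = act σ (b)`,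
`b = [t₀] + h - c₀`, and HH b: HNG shifted by h (`b + [t₀] + h'' = 2 [t₀] + (h + h'') - c₀`). c ∈ Jk: c₁ ∉ Jk (c₀ ∉ Jk by (*)
and gn), so c + c₁ ∉ Jk, HH (c + c₁), HH (-(c + c₁)), `-c = -(c + c₁) + c₁`. -/
def HgrStmt : Prop :=
  ∀ (k U : Type) [Field k] [Field U] [Algebra k U] (f : k[X]) (g : U[X]) (J : Type)
    [AddCommGroup J] (th : Pt g → J) (cl : (Fin 4 → U) → J) (act : (U ≃ₐ[k] U) → J →+ J)
    (Jk : AddSubgroup J) (q : Fin 4 → U) (H0 : AddSubgroup J) (t0 : Fin 4 → k),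
    Ctx f g J th cl act Jk q H0 t0 →
    ∃ H : AddSubgroup J, (∀ c, c ∈ H ↔ HH g th cl q H0 t0 c) ∧
      (∀ (σ : U ≃ₐ[k] U) (c : J), c ∈ H → act σ c ∈ H) ∧ H0 ≤ H ∧
      cl q - cl (emb U t0) ∈ H ∧ cl q ∉ Jk

/-- **Row HTR** (G is transitive on the nonconstant elements; uses HGR, HRE, HSA, GHI, GNL, KDT TRD, SBG, CMA, EMB; medium).
PROOF. Some h₁ ∈ H₀ (GNL (4)) has t with `[t] = [t₀] + h₁`, `On f t` (HSA) and `Good g cl (-[t₀] - h₁) q` (GHI, GNL (3)):
`t1 = ngv t`, `[t1] = -[t]`, in good position to q. `q₁ = cmp (g.coeff 4) q (emb t1)`, `cl q₁ = c₀ - [t₀] - h₁` ∈ H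
(H₀ <= H), not in Jk. TRD: Φ' of degree <= n'. Let c ∈ H, c ∉ Jk: HRE: `c = act σ c₀ - [t₀] - h = act σ (c₀ + (h₁ - h)) - [t₀] - h₁`
(act σ fixes Jk) `= act σ (act τ c₀) - [t₀] - h₁ = act (σ τ) (cl q₁)` (SBG (1)). -/
def HtrStmt : Prop :=
  ∀ n : ℕ, ∃ n' : ℕ, ∀ (k U : Type) [Field k] [Field U] [Algebra k U] (f : k[X]) (g : U[X])
    (J : Type) [AddCommGroup J] (th : Pt g → J) (cl : (Fin 4 → U) → J)
    (act : (U ≃ₐ[k] U) → J →+ J) (Jk : AddSubgroup J) (q : Fin 4 → U) (H0 : AddSubgroup J)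
    (t0 : Fin 4 → k), Ctx f g J th cl act Jk q H0 t0 →
    ∀ Φ : MvPolynomial (Fin 2) k, Φ ≠ 0 → Φ.totalDegree ≤ n → Zr Φ (q 0) (q 1) →
    ∃ (H : AddSubgroup J) (t1 : Fin 4 → k) (Φ' : MvPolynomial (Fin 2) k), On f t1 ∧
      rr q (emb U t1) ≠ 0 ∧ ro q (emb U t1) ≠ 0 ∧ Φ' ≠ 0 ∧ Φ'.totalDegree ≤ n' ∧
      Zr Φ' (cmp (g.coeff 4) q (emb U t1) 0) (cmp (g.coeff 4) q (emb U t1) 1) ∧
      cl (cmp (g.coeff 4) q (emb U t1)) ∈ H ∧ cl (cmp (g.coeff 4) q (emb U t1)) ∉ Jk ∧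
      (∀ (σ : U ≃ₐ[k] U) (c : J), c ∈ H → act σ c ∈ H) ∧
      ∀ c ∈ H, c ∉ Jk → ∃ σ : U ≃ₐ[k] U, c = act σ (cl (cmp (g.coeff 4) q (emb U t1)))

/-! ### differentials -/

/-- **Row DER** (a derivation; medium). PROOF. Choose x ∈ U, x ∉ k (`Env.ne`): transcendental over k; d/dx on k(x)
extended to U (algebraic, char 0: see `Pool/Agent/Helper46_COV/GDR.lean`, row GDR, for the extension). Kernel: k by linearity;
if `d u = 0`, u ∉ k: x is algebraic over k(u) (`Env.td`), minimal polynomial P(u, X): `0 = d (P(u, x)) = P_X(u, x) d x`,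
`P_X(u, x) ≠ 0` (separable), so d x = 0: contradiction. σ: `d' = σ⁻¹ d σ` is a k-derivation of U; `d'` and `d'(x) d` agree on
x, so on k(x), so on U (algebraic, separable: uniqueness); `d (σ a) = σ (d' a) = σ (d' x) σ (d a)`, `u = σ (d' x) = d (σ x) ≠ 0`
as σ x ∉ k. -/
def DerStmt : Prop :=
  ∀ (k U : Type) [Field k] [Field U] [Algebra k U] (f : k[X]) (g : U[X]), Env k U f g →
    ∃ d : Derivation k U U, Dgd d

/-- **Row ABL** (Abel's theorem; medium). `x` = the six roots of `L² - g`. PROOF. Write `P^d` for d applied to the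
coefficients; `g^d = 0`. M = prod (X - x i), c = l². `2 L L^d = (L² - g)^d = d(c) M - c sum_i d(x i) M_i`,
`M_i = prod_(m ≠ i) (X - x m)`. I₁ = {i : L(x i) ≠ 0}, I₀ the others. For i ∈ I₀: g(x i) = 0, so x i ∈ k, d(x i) = 0, and the
term is 0. CLAIM: `Δ = 2 L^d + c sum_(i ∈ I₁) (d(x i)/L(x i)) M_i = 0`. Its degree is <= 5, so it is enough that `M ∣ Δ`.
`L Δ ≡ c sum_(I₁) (d(x i)/L(x i)) (L - L(x i)) M_i ≡ 0` mod M. Put `M₁ = prod_(I₁) (X - x i)` (coprime to L): `M₁ ∣ Δ`. For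
i ∈ I₀: `(X - x i)² ∣ L²` and `(X - x i)² ∤ g` (squarefree), so x i is a simple root of M; it is a root of the M_m with m ∈ I₁,
and `0 = d (L(x i)) = L^d(x i) + L'(x i) d(x i) = L^d(x i)`: so Δ(x i) = 0. Hence `M ∣ Δ`, Δ = 0. The coefficients of X^5 and X^4 (L^d has
degree <= 3): `sum_(I₁) d(x i)/L(x i) = 0`, `sum_(I₁) (d(x i)/L(x i)) (x i - sum_m x m) = 0`. So the claim for s = 1 and
s = X; linear combination. -/
def AblStmt : Prop :=
  ∀ (k U : Type) [Field k] [Field U] [Algebra k U] (f : k[X]) (g : U[X]), Env k U f g →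
    ∀ (d : Derivation k U U) (s : k[X]) (x : Fin 6 → U) (L : U[X]) (l : U), s.natDegree ≤ 1 →
    l ≠ 0 → L.natDegree ≤ 3 → L ^ 2 - g = C (l ^ 2) * ∏ i, (X - C (x i)) →
    ∑ i, aeval (x i) s * d (x i) / L.eval (x i) = 0

/-- **Row AB2** (for Mumford vectors; uses ABL, KDT CMA; easy-medium). PROOF. CMA: `L = lin q t`, `l = l3 q t ≠ 0`,
`L² - g = l² A_q A_t A_(cmp q t)`, `L = B_q` mod A_q, `L = B_t` mod A_t, `L = -B` mod `A_(cmp q t)`; so L takes the values
z.b, w.b, z'.b, w'.b, -z''.b, -w''.b at the six roots. ABL. -/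
def Ab2Stmt : Prop :=
  ∀ (k U : Type) [Field k] [Field U] [Algebra k U] (f : k[X]) (g : U[X]), Env k U f g →
    ∀ (d : Derivation k U U) (s : k[X]) (q t : Fin 4 → U), s.natDegree ≤ 1 → On g q → On g t →
    rr q t ≠ 0 → ro q t ≠ 0 → ∀ z w z' w' z'' w'' : Pt g, Pts q z w → Pts t z' w' →
    Pts (cmp (g.coeff 4) q t) z'' w'' →
    om d s z + om d s w + om d s z' + om d s w' = om d s z'' + om d s w''

/-- **Row INV** (an invariant differential; uses PRS, GHI, GNL, AB2, KDT EMB, CMA; medium). PROOF. z, w = the points of q (PRS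
(1)), z.a ≠ w.a (q4). `W_j = om (X^j) z + om (X^j) w`, j = 0, 1. They are not both 0: `W_1 - z.a W_0 = (w.a - z.a) d(w.a)/w.b`,
`W_1 - w.a W_0 = ..`; if both are 0, then z.a, w.a ∈ k (if w.b = 0, w.a is a root of g, in k), so q 0, q 1 ∈ k: not generic. For
generic h ∈ H₀ (GHI: `Good g cl (0 + h) q`): h = [t], `cl (cmp q (emb t)) = c₀ + h = act σ c₀ = cl (σ q)`, so
`cmp q (emb t) = σ q`, with the points `(σ z.a, σ z.b)`, `(σ w.a, σ w.b)`. The points of emb t have coordinates in k (roots of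
`A_t` over the closed field k), their om is 0. AB2: `W_j = u σ(W_j)` (Dgd: `d (σ a) = u σ (d a)`). If W_0 = 0: s = 1.
Otherwise `ρ = W_1/W_0` has σ ρ = ρ for all these infinitely many σ q. If ρ ∉ k: all q i are algebraic over k(ρ) (`Env.td`), σ fixes k(ρ),
so σ (q i) is a root of the minimal polynomial of q i: finitely many σ q; but `cl (σ q) = c₀ + h`: contradiction. So ρ ∈ k,
`s = X - ρ`. -/
def InvStmt : Prop :=
  ∀ (k U : Type) [Field k] [Field U] [Algebra k U] (f : k[X]) (g : U[X]) (J : Type)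
    [AddCommGroup J] (th : Pt g → J) (cl : (Fin 4 → U) → J) (act : (U ≃ₐ[k] U) → J →+ J)
    (Jk : AddSubgroup J) (q : Fin 4 → U) (H0 : AddSubgroup J) (t0 : Fin 4 → k),
    Ctx f g J th cl act Jk q H0 t0 → ∀ d : Derivation k U U, Dgd d →
    ∃ s : k[X], s ≠ 0 ∧ s.natDegree ≤ 1 ∧ ∀ z w : Pt g, Pts q z w → om d s z + om d s w = 0

/-- **Row HOM** (uses PRS, HTR, DER, AB2, INV, KDT CMA; medium). PROOF. d from DER, s from INV, H, t1, Φ' from HTR,
`q₁ = cmp q (emb t1)` (On: `comp`), z₁, w₁ its points (PRS (1)): `cl q₁ = th z₁ + th w₁`. `nc`: z₁, w₁. AB2: `om z₁ + om w₁ = (om of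
the points of q, sum 0 by INV) + (om of the points of emb t1, each 0 because the coordinates are in k) = 0`. Let `c = th z + th w ∈ H`. (i)
c ∉ Jk: `c = act σ (cl q₁) = th (σ z₁) + th (σ w₁)` (`act_th`), `th_pair` (c ≠ 0 as 0 ∈ Jk): {z, w} = {σ z₁, σ w₁}. So
`om z + om w = u σ(om z₁ + om w₁) = 0`, and `Φ'(z.a + w.a, z.a w.a) = σ (Φ'(q₁ 0, q₁ 1)) = 0` (`A_q₁ = (X - z₁.a)(X - w₁.a)`):
h2, h4. (ii) c = 0: `th w = - th z = th z.neg`, w = z.neg (`th_inj`), om z.neg = - om z. (iii) c ∈ Jk, c ≠ 0: PRS (2): c = cl x with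
the points z, w; by (*) x = emb t; z.a, w.a are roots of A_t, in k: om = 0. -/
def HomStmt : Prop :=
  ∀ n : ℕ, ∃ n' : ℕ, ∀ (k U : Type) [Field k] [Field U] [Algebra k U] (f : k[X]) (g : U[X])
    (J : Type) [AddCommGroup J] (th : Pt g → J) (cl : (Fin 4 → U) → J)
    (act : (U ≃ₐ[k] U) → J →+ J) (Jk : AddSubgroup J) (q : Fin 4 → U) (H0 : AddSubgroup J)
    (t0 : Fin 4 → k), Ctx f g J th cl act Jk q H0 t0 →
    ∀ Φ : MvPolynomial (Fin 2) k, Φ ≠ 0 → Φ.totalDegree ≤ n → Zr Φ (q 0) (q 1) →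
    ∃ (H : AddSubgroup J) (d : Derivation k U U) (s : k[X]), Ell g th act Jk H d s n'

/-! ### the block and the field -/

/-- **Row CLS** (the classes; uses PRS; medium). PROOF. (1) Let z, w be as in `nc`, `w' = w.neg` (`th w' = - th w`): `th z - th w' ∈ H`,
z ≠ w'. One of z.a, w.a is not in k: otherwise z, w are k-points (roots of g(x) = b² ..: b ∈ k) and `th z + th w ∈ Jk` (`mem_k`).
Let ζ = z if z.a ∉ k, ζ = w' otherwise. `S = {z' : th ζ - th z' ∈ H}`, it has >= 2 elements. (2) `om ζ ≠ 0`: s(ζ.a) ≠ 0 and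
ζ.b ≠ 0 (roots are in k), d ζ.a ≠ 0. For z' ∈ S: `th ζ + th z'.neg ∈ H`, h4: `om z' = om ζ ≠ 0`, so z'.a ∉ k. (3) the a-coordinates of the
elements of S are different: otherwise z', z'.neg ∈ S, z' ≠ z'.neg, `th z' + th z' ∈ H`, h4: `2 om z' = 0`. (4) z' ∈ S, z' ≠ ζ:
`c = th ζ + th z'.neg ∈ H`, c ≠ 0 (`th_inj`), c ∉ Jk (otherwise PRS (2): c = cl x = cl (emb t), ζ.a is a root of A_t, in k). h2: z'.a is a
root of `N = Φ(ζ.a + X, ζ.a X)`, of degree <= n; N ≠ 0: otherwise for every x ∈ k the polynomial `Φ(Y + x, x Y)` has the root ζ.a ∉ k, so it is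
0, Φ(y + x, x y) = 0 for all x, y ∈ k, every (s, p) ∈ k² is (x + y, x y), so Φ = 0. So S is finite, 2 <= #S <= n + 1; z = an enumeration of S.
(5) last claim: point P = (σ a, σ b) of z i has the a-coordinate of z i', so P = z i' (e = 1) or P = (z i').neg (e = -1). For l:
`th (z i) - th (z l) ∈ H`, apply act σ (st, `act_th`): `th P - th (σ z l) ∈ H`; e = 1: σ z l ∈ S. e = -1: `-th (z i') - th (σ z l) ∈ H`, so
(σ z l).neg ∈ S. (`th (z i) - th (z l) ∈ H`: difference of two elements of H.) -/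
def ClsStmt : Prop :=
  ∀ (k U : Type) [Field k] [Field U] [Algebra k U] (f : k[X]) (g : U[X]), Env k U f g →
    ∀ (J : Type) [AddCommGroup J] (th : Pt g → J) (cl : (Fin 4 → U) → J)
    (act : (U ≃ₐ[k] U) → J →+ J) (Jk : AddSubgroup J), JK f g J th cl act Jk →
    ∀ (H : AddSubgroup J) (d : Derivation k U U) (s : k[X]) (n : ℕ), Ell g th act Jk H d s n →
    ∃ (m : ℕ) (z : Fin m → Pt g), 2 ≤ m ∧ m ≤ n + 1 ∧ Function.Injective (fun i => (z i).a) ∧
      (∀ i, (z i).a ∉ (algebraMap k U).range) ∧ (∀ i i', om d s (z i) = om d s (z i')) ∧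
      ∀ (σ : U ≃ₐ[k] U) (i i' : Fin m), σ (z i).a = (z i').a → ∃ e : U, (e = 1 ∨ e = -1) ∧
        ∀ l, ∃ l', σ (z l).a = (z l').a ∧ σ (z l).b = e * (z l').b

/-- **Row FIX** (Galois theory; medium). PROOF. x ∉ k is transcendental over k (k closed). (1) `RatFunc k → U`, X ↦ x:
`RatFunc.liftAlgHom` / `IsFractionRing.liftAlgHom` (injective on k[X]). (2) the range of ev is `E = k(x)`; U/E is algebraic
(`Env.td`), char 0, U closed: Galois; `IsGalois`, fixed field of `U ≃ₐ[E] U` is E; an automorphism of U over k fixing x fixes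
E. (3) `k(x) ≅ k(x')`, extend to U, an algebraic closure of both (KDT row EXT with `Φ = X_1`, points (x, 0), (x', 0)). -/
def FixStmt : Prop :=
  ∀ (k U : Type) [Field k] [Field U] [Algebra k U] (f : k[X]) (g : U[X]), Env k U f g →
    (∀ x : U, x ∉ (algebraMap k U).range → ∃ ev : RatFunc k →ₐ[k] U, ev RatFunc.X = x) ∧
    (∀ (ev : RatFunc k →ₐ[k] U), ev RatFunc.X ∉ (algebraMap k U).range → ∀ u : U,
      (∀ σ : U ≃ₐ[k] U, σ (ev RatFunc.X) = ev RatFunc.X → σ u = u) → ∃ φ : RatFunc k, ev φ = u) ∧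
    ∀ x x' : U, x ∉ (algebraMap k U).range → x' ∉ (algebraMap k U).range →
      ∃ σ : U ≃ₐ[k] U, σ x = x'

/-- **Row LUR** (Lüroth; uses FIX; medium-strong). x = ev X. PROOF. `E = {φ ∈ k(X) : σ (ev φ) = ev φ for all σ with σ x ∈ Ξ}`, an
intermediate field. Coefficients c_j of `prod_(y ∈ Ξ) (T - y)`: σ x ∈ Ξ implies σ Ξ = Ξ (injective, finite), σ c_j = c_j; in
particular for σ x = x ∈ Ξ, so c_j = ev r_j (FIX (2)), r_j ∈ E. So X is a root of the monic polynomial `sum r_j T^j` over E, of degree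
#Ξ: `[k(X) : E] <= #Ξ`; E ≠ k (X is not algebraic over k). Mathlib's Lüroth (`Mathlib/FieldTheory/RatFunc/Luroth.lean`,
`RatFunc.Luroth.eq_adjoin_generator`): E = k(θ), θ = P/Q with coprime P, Q (num, denom), `[k(X) : k(θ)] = max (deg P, deg Q)` (the
minimal polynomial of X over k(θ), in the same file or `RatFunc/..`). For every y ∈ Ξ there is σ with σ x = y (FIX (3)); σ fixes ev E, so y is a
root of the minimal polynomial of x over ev E: degree >= #Ξ. So max = #Ξ >= 1. `wr P Q ≠ 0`: otherwise (P/Q)' = 0, P/Q constant (char 0).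
Last claim: φ ∈ E = k(θ) is `N(θ)/M(θ)` (`IntermediateField.mem_adjoin_simple_iff`). -/
def LurStmt : Prop :=
  ∀ (k U : Type) [Field k] [Field U] [Algebra k U] (f : k[X]) (g : U[X]), Env k U f g →
    ∀ (ev : RatFunc k →ₐ[k] U) (Ξ : Finset U), ev RatFunc.X ∈ Ξ →
    (∀ y ∈ Ξ, y ∉ (algebraMap k U).range) →
    (∀ σ : U ≃ₐ[k] U, σ (ev RatFunc.X) ∈ Ξ → ∀ y ∈ Ξ, σ y ∈ Ξ) →
    ∃ P Q : k[X], IsCoprime P Q ∧ wr P Q ≠ 0 ∧ max P.natDegree Q.natDegree = Ξ.card ∧
      (∀ σ : U ≃ₐ[k] U, σ (ev RatFunc.X) ∈ Ξ → σ (ev (rf P / rf Q)) = ev (rf P / rf Q)) ∧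
      ∀ φ : RatFunc k, (∀ σ : U ≃ₐ[k] U, σ (ev RatFunc.X) ∈ Ξ → σ (ev φ) = ev φ) →
        InK (rf P / rf Q) φ

/-- **Row FLD** (uses ALG, FIX, LUR; medium). PROOF. `i₀ = 0 ∈ Fin m`, ξ = (z i₀).a, η = (z i₀).b ≠ 0 (a root of g is in k), ev (FIX (1)),
Ξ = the image of the a-coordinates, #Ξ = m. The last hypothesis gives the hypothesis of LUR. P, Q. Let σ with σ ξ ∈ Ξ, e the sign. (i)
`v = sum_l (z l).b (z l).a^j ≠ 0` for some j < m (Vandermonde, `Matrix.det_vandermonde_ne_zero_iff`; (z l).b ≠ 0, m >= 1).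
`σ v = e v` (l ↦ l' is injective, so bijective). If σ ξ = ξ: then l' = i₀ for l = i₀, `σ η = e η`, so v/η is fixed: `v/η = ev V` (FIX (2)),
V ≠ 0. (ii) `ev (f V²) = f(ξ) v²/η² = v²` is fixed by all σ with σ ξ ∈ Ξ: InK. (iii) θ = ev (P/Q): `d θ = ev (wr P Q/Q²) d ξ`, so
`ev (s V Q²/wr P Q) = (s(ξ) d ξ/η) v/d θ = om (z i₀) v/d θ`. With `d (σ a) = u σ (d a)`: `u σ(om (z i₀)) = s(σ ξ) d(σ ξ)/σ η = e om (z l') =
e om (z i₀)` (l = i₀: σ ξ = (z l').a, σ η = e (z l').b); `d θ = d (σ θ) = u σ(d θ)`; so σ of the element is `(e om/u)(e v)/(d θ/u)` =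
itself: InK. ALG (2 <= m = max of the degrees): Cov m f. (CharZero, IsAlgClosed from Env.) -/
def FldStmt : Prop :=
  ∀ (k U : Type) [Field k] [Field U] [Algebra k U] (f : k[X]) (g : U[X]), Env k U f g →
    ∀ (d : Derivation k U U) (s : k[X]), Dgd d → s ≠ 0 → s.natDegree ≤ 1 →
    ∀ (m : ℕ) (z : Fin m → Pt g), 2 ≤ m → Function.Injective (fun i => (z i).a) →
      (∀ i, (z i).a ∉ (algebraMap k U).range) → (∀ i i', om d s (z i) = om d s (z i')) →
      (∀ (σ : U ≃ₐ[k] U) (i i' : Fin m), σ (z i).a = (z i').a → ∃ e : U, (e = 1 ∨ e = -1) ∧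
        ∀ l, ∃ l', σ (z l).a = (z l').a ∧ σ (z l).b = e * (z l').b) →
    Cov m f

/-- **Row GRP** (the result of block B; uses HOM, CLS, FLD, KDT GUP, INP, SBG; easy-medium). PROOF. (0) H₀ from SBG. t₀: INP for Φ and
`G = X_0² - 4 X_1` (Φ does not divide it, because q4): a point (s0, p0) of Φ with s0² ≠ 4 p0; GUP (1): t₀ with On f t₀, Spc q t₀.
So Ctx. (1) HOM: Ell with n'; CLS, FLD: Cov m f, m <= n' + 1; Cov is monotone in the degree. -/
def GrpStmt : Prop :=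
  ∀ n : ℕ, ∃ m : ℕ, ∀ (k U : Type) [Field k] [Field U] [Algebra k U] (f : k[X]) (g : U[X]),
    Env k U f g → ∀ (J : Type) [AddCommGroup J] (th : Pt g → J) (cl : (Fin 4 → U) → J)
      (act : (U ≃ₐ[k] U) → J →+ J) (Jk : AddSubgroup J), JK f g J th cl act Jk →
    ∀ (q : Fin 4 → U) (Φ : MvPolynomial (Fin 2) k), On g q → Gnr k q → q 0 ^ 2 ≠ 4 * q 1 →
    Irreducible Φ → Φ.totalDegree ≤ n → Zr Φ (q 0) (q 1) →
    {h : J | h ∈ Jk ∧ h ∈ Stb cl act q}.Infinite → Cov m f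

end Pool.Agent.COV
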