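import Pool.Agent.COV.StmtsB
import Pool.Agent.TTC.StmtsG

set_option autoImplicit false

/-!
# Squad COV (MP_160b6c_nt), block C (assembly)

The theorem of TTC part 5 with `Cov` instead of the thin subgroups, and without any exception for a family with
algebraically independent coefficients.
-/

namespace Pool.Agent.COV

open Polynomial NumberField H58Q Pool.Agent.SZT Pool.Agent.KDT Pool.Agent.TTC

/-- the polynomial over an algebraic closure -/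
noncomputable def acl {K : Type} [Field K] (f : K[X]) : (AlgebraicClosure K)[X] :=
  f.map (algebraMap K (AlgebraicClosure K))

/-- **Row ZRC** (the zero estimate; copy of `Pool/Agent/Helper18_KDD/ZP.lean`, theorem `zeroP`, with GRP). PROOF. As
`zeroP` up to the line `hinf` (the stabiliser is infinite), B = max of the bounds there and of the m of GRP for n; then
`hGRP n` for q, Φ: `Cov m fk`, `fk = acl f`. (STG, R, M are not needed.) -/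
def ZrcStmt : Prop :=
  ∀ e : ℕ, ∃ B : ℕ, ∀ (K : Type) [Field K] [CharZero K] (f : K[X]), f.Monic → f.natDegree = 5 →
    Squarefree f → ∀ P : MvPolynomial (Fin 4) K, P.totalDegree ≤ e →
    (∃ (E : Type) (_ : Field E) (φ : K →+* E) (A B : E[X]), Mum (f.map φ) A B ∧
      A.natDegree = 2 ∧ (A.coeff 1) ^ 2 ≠ 4 * A.coeff 0 ∧
      MvPolynomial.eval₂ φ (kum (f.map φ) A B) P ≠ 0) →
    ∀ (I : Ideal (Q K f)) (N : ℕ), I ≠ ⊥ → 0 < N → (∀ j : ℕ, (I ^ j).IsPrincipal ↔ N ∣ j) →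
    ({j : ℕ | j < N ∧ ¬ ∃ A B : K[X], Mum f A B ∧ A.natDegree = 2 ∧
      SameCl (MI f A B) (I ^ j) ∧ MvPolynomial.eval (kum f A B) P = 0}.ncard : ℝ)
      ≤ e * (Real.sqrt N + 1) →
    N ≤ B ∨ Cov B (acl f)

/-- **Row KDC** (copy of `Pool/Agent/Helper18_KDD/KDFP.lean`, theorem `kdfP`, with ZRC; the same hypotheses). PROOF. As
`kdfP`, `by_cases Cov B' (acl Y.f)` with B' the final bound instead of `hThin`. -/
def KdcStmt : Prop :=
  ∀ (d : ℕ) (ε : ℝ), 0 < ε → ∃ B : ℕ, ∀ (K : Type) [Field K] [NumberField K],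
    Module.finrank ℚ K ≤ d → ∀ (Y : UBT.OddCurve K), Y.f.Monic → Y.f.natDegree = 5 →
    (∀ n, IsIntegral ℤ (Y.f.coeff n)) →
    ∀ S : Finset (FinitePlace K), (∀ v ∈ S, KDD.CubeFree v.val Y.f ∧ v (discr Y.f) < 1) →
    ε * lH Y.f ≤ ∑ v ∈ S, Real.log (Ideal.absNorm v.maximalIdeal.asIdeal) →
    ∀ c : Y.Jac, IsOfFinOrder c → orderOf c ≤ B ∨ Cov B (acl Y.f)

/-- **Row CVM** (Cov is monotone and compatible with field extensions; easy). PROOF. (2) map j, P, Q, V; `wr` commutes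
with `map`; φ injective. -/
def CvmStmt : Prop :=
  (∀ (k : Type) [Field k] (n m : ℕ) (F : k[X]), n ≤ m → Cov n F → Cov m F) ∧
  ∀ (k l : Type) [Field k] [Field l] (φ : k →+* l) (n : ℕ) (F : k[X]), Cov n F → Cov n (F.map φ)

/-- **Row CVS** (from the quintic model to the sextic; medium). `om a α` = the odd model, `F = sext a`. PROOF. By
`oddModel_spec` in `Pool/Agent/Results/MP_160b6c_nt/AlmostAllGenusTwo.lean` (copy it; `TTC.om`, `TTC.sext`): `e = a_0^4 F'(α)`,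
`κ = a_0² F'(α)`, `F(α + e/x) x^6 = κ² f(x)`, f = om a α (degree 5, monic). `f V² = P Q (P - Q)(P - j Q)`; P, Q, P - Q,
P - j Q ≠ 0, V ≠ 0; `5 + 2 deg V <= 4 n`, so `deg V <= 2 n - 3` and n >= 2. Put `y = X - C α`; for a polynomial G of degree <= N let
`G^(N) = sum_i G_i e^i y^(N-i)`, i.e. `G^(N)(x') = (x' - α)^N G(e/(x' - α))` for x' ≠ α. `P' = P^(n)`, `Q' = Q^(n)`,
`V' = (e^3/κ) V^(2n-3)`: `F V'² = P' Q' (P' - Q')(P' - j Q')` (values at all x' ≠ α: `F(x') = κ² f(e/y) (y/e)^6`; k is infinite).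
`wr P' Q' ≠ 0`: otherwise P' = c Q' or Q' = 0 (char 0; Q ≠ 0 so Q' ≠ 0), then P = c Q (the map G ↦ G^(n) is
injective and linear), wr P Q = 0. -/
def CvsStmt : Prop :=
  ∀ (k : Type) [Field k] [CharZero k] (n : ℕ) (a : Fin 7 → k) (α : k), a 0 ≠ 0 →
    (sext a).eval α = 0 → (derivative (sext a)).eval α ≠ 0 → Cov n (TTC.om a α) → Cov n (sext a)

/-- **Row CVT** (uses CVM, CVS; easy-medium). PROOF. Embeddings `ψ : AlgebraicClosure K → ℂ` (K → ℂ a number field, then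
`IsAlgClosed.lift`). CVM (2) for ψ; `(acl (om a α)).map ψ = om (a in ℂ) (ψ α)` (`om` is natural: `Na6Stmt` or `map`), `sext`
too; F squarefree in char 0 (over ℚ, so separable): `F'(α) ≠ 0`. CVS. -/
def CvtStmt : Prop :=
  ∀ (K : Type) [Field K] [NumberField K] (n : ℕ) (a : Fin 7 → ℤ) (α : K), a 0 ≠ 0 →
    Squarefree ((sext a).map (Int.castRingHom ℚ)) →
    ((sext a).map (Int.castRingHom K)).eval α = 0 →
    Cov n (acl (TTC.om (fun i => ((a i : ℤ) : K)) α)) → Cov n ((sext a).map (Int.castRingHom ℂ))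

/-- The conclusion of the theorem for the curve `y^2 = F(x)`, F = sext a. -/
def Good8 (d B : ℕ) (a : Fin 7 → ℤ) : Prop :=
  ((sext a).map (Int.castRingHom ℚ)).natDegree = 6 ∧
  Squarefree ((sext a).map (Int.castRingHom ℚ)) ∧
  (Cov B ((sext a).map (Int.castRingHom ℂ)) ∨
  ∀ (K : Type) [Field K] [NumberField K], Module.finrank ℚ K ≤ d →
    ((sext a).map (Int.castRingHom K)).Splits →
    ∃ α : K, ((sext a).map (Int.castRingHom K)).eval α = 0 ∧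
    ∀ Y : UBT.OddCurve K, Y.f = TTC.om (fun i => ((a i : ℤ) : K)) α → ∀ c : Y.Jac, IsOfFinOrder c →
      orderOf c ≤ B)

/-- **Row FA8** (copy of `Pool/Agent/Helper36_TTC/FA7.lean` with KDC; uses NA6, NA7, SF6, BN7, FacStmt, Cn2Stmt, OM1,
SI7, LO7, HT6, PG7, PL6, KDC, CVT). PROOF. As FA7. At the end: if `Cov B (sext a over ℂ)`, fine. Otherwise for K, α, Y, c as in
FA7 KDC gives `orderOf c <= B` or `Cov B (acl Y.f)`, and the second contradicts CVT. -/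
def Fam8Stmt : Prop :=
  ∀ (d k : ℕ) (δ : ℝ), 0 < δ → ∃ (B : ℕ) (C : ℝ), 0 < C ∧ ∀ (H : ℕ) (F : Fin 7 → ℤ[X]), 1 ≤ H →
    (∀ i, Siz k H (F i)) →
    (∃ t : ℂ, d6 (fun i => aeval t (F i)) ≠ 0) →
    (∃ t : ℂ, d6 (fun i => aeval t (F i)) = 0 ∧
      ∃ j ≤ 1, ∃ m ≤ 5, e7 j m (fun i => aeval t (F i)) ≠ 0) →
    ({t : ℤ | |t| ≤ (H : ℤ) ∧ ¬ Good8 d B (fun i => (F i).eval t)}.ncard : ℝ)
      ≤ C * (H : ℝ) ^ δ

/-- **Row LI8** (copy of `Pool/Agent/Helper34_TTC/LI7.lean` with Good8, Fam8Stmt). -/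
def Lin8Stmt : Prop :=
  ∀ (d k m : ℕ) (δ : ℝ), 0 < δ → ∃ (B L K : ℕ) (C : ℝ), 0 < C ∧ 1 ≤ L ∧
    ∀ (H : ℕ) (F : Fin 7 → MvPolynomial (Fin (m + 1)) ℤ) (i₀ : Fin (m + 1)), 1 ≤ H →
    (∀ i, MSiz k H (F i)) → Nodal7 F →
    ∃ (a : Fin m → ℕ) (R : MvPolynomial (Fin m) ℂ), (∀ j, a j ≤ L) ∧ R ≠ 0 ∧ R.totalDegree ≤ K ∧
      ∀ b : Fin m → ℤ, (∀ j, |b j| ≤ 2 * (L : ℤ) * H) →
        MvPolynomial.eval (fun j => ((b j : ℤ) : ℂ)) R ≠ 0 →
        ({s : ℤ | |s| ≤ (H : ℤ) ∧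
          ¬ Good8 d B (fun i => MvPolynomial.eval (pt i₀ a s b) (F i))}.ncard : ℝ)
          ≤ C * (H : ℝ) ^ δ

/-- **Row MU8** (copy of `Pool/Agent/Helper40_TTC/MU7.lean` with Good8, Lin8Stmt). -/
def Mul8Stmt : Prop :=
  ∀ (d k m : ℕ) (δ : ℝ), 0 < δ → ∃ (B : ℕ) (C : ℝ), 0 < C ∧
    ∀ (H : ℕ) (F : Fin 7 → MvPolynomial (Fin (m + 1)) ℤ) (T : Fin (m + 1) → ℕ) (i₀ : Fin (m + 1)),
    (∀ i, 1 ≤ T i ∧ T i ≤ H ∧ T i₀ ≤ T i) → (∀ i, MSiz k H (F i)) → Nodal7 F →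
    ({t : Fin (m + 1) → ℤ | (∀ i, |t i| ≤ (T i : ℤ)) ∧
        ¬ Good8 d B (fun i => MvPolynomial.eval t (F i))}.ncard : ℝ) * (T i₀ : ℝ)
      ≤ C * (H : ℝ) ^ δ * ∏ i, (T i : ℝ)

end Pool.Agent.COV
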