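import Pool.Agent.COV.StmtsC

set_option autoImplicit false

/-!
# Squad COV, block D (MP_160b6c_nt): coefficients in the integers of an arbitrary number field K₀

THEOREM (row MUL9): `Mul8Stmt` for families of sextics with coefficients in `(𝓞 K₀)[t_0, .., t_m]`, K₀ any number field,
at integer points t; K runs over the number fields of degree <= d which contain K₀.
Block L (LR1 LR2 LR3): values of an integer polynomial D have many prime divisors which do not divide E. Block N: norms from K₀, local rows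
for a : Fin 7 → K instead of integers. Rules as before (table covm, ord 61 - 76); rows import `Pool.Agent.COV.StmtsD`.
-/

namespace Pool.Agent.COV

open Polynomial NumberField Pool.Agent.TTC

/-- the product of the primes which divide x and not y -/
def rad2 (x y : ℤ) : ℕ := ∏ p ∈ x.natAbs.primeFactors.filter (fun p => ¬ ((p : ℕ) : ℤ) ∣ y), p

/-- total degree at most A, coefficients at most `A H^A` -/
def SzM {n : ℕ} (A H : ℕ) (P : MvPolynomial (Fin n) ℤ) : Prop :=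
  P.totalDegree ≤ A ∧ ∀ l, |P.coeff l| ≤ (A : ℤ) * (H : ℤ) ^ A

/-- total degree at most A, all conjugates of the coefficients at most M -/
def Sz0 {K₀ : Type} [Field K₀] {n : ℕ} (A : ℕ) (M : ℝ) (P : MvPolynomial (Fin n) (𝓞 K₀)) : Prop :=
  P.totalDegree ≤ A ∧ ∀ (ψ : K₀ →+* ℂ) (l : Fin n →₀ ℕ), ‖ψ ((P.coeff l : 𝓞 K₀) : K₀)‖ ≤ M

/-! ## Block L -/

/-- **Row LR1** (one variable; uses FacStmt, Cn2Stmt; easy-medium; see `Helper60_COV/FA8.lean`). PROOF. A' from FAC for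
A, ε, C0 from CN2 for `2 A' + 2` and δ. φ, ρ from FAC for H, D, E, t₀; CN2 with n₀ = ρ. If φ(t) ≠ 0, D(t) ≠ 0 and the
product over `{p ∣ φ(t), p ∤ ρ}` is `>= H^ε`: every such p divides D(t) (φ ∣ D) and does not divide E(t) (FAC), so
`rad2 (D(t)) (E(t)) >= H^ε` (product over a larger set of numbers >= 1). D(t) = 0 for at most A values t. `C = C0 + A`
(`1 <= H^δ`). -/
def Lr1Stmt : Prop :=
  ∀ (A : ℕ) (δ : ℝ), 0 < δ → ∃ ε C : ℝ, 0 < ε ∧ 0 < C ∧ ∀ (H : ℕ) (D E : ℤ[X]), 1 ≤ H →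
    Siz A (A * (H : ℤ) ^ A) D → Siz A (A * (H : ℤ) ^ A) E → D ≠ 0 →
    (∃ t₀ : ℂ, aeval t₀ D = 0 ∧ aeval t₀ E ≠ 0) →
    ({t : ℤ | |t| ≤ (H : ℤ) ∧ (D.eval t = 0 ∨
      (rad2 (D.eval t) (E.eval t) : ℝ) < (H : ℝ) ^ ε)}.ncard : ℝ) ≤ C * (H : ℝ) ^ δ

/-- **Row LR2** (lines; copy of `Helper25_COV/LI8.lean`; uses Sb1, Sb2, Dir, Ndg, Lsz, Lr1Stmt). PROOF. As LI8 with P = D
and E0 = E mapped to ℂ (no d6, e7; `hP0` from D ≠ 0): `L = A + 1`, `K = A * A`, DIR, NDG. LSZ for k = A, m, 2L (`H₁ = A H^A` or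
`A H^A + 1 >= H` instead of H: MSiz A H₁ D): `Siz A (A₁ H₁^(A₁))` for the polynomials on the line, so `Siz A₂ (A₂ H^(A₂))`; LR1 for A₂, δ. -/
def Lr2Stmt : Prop :=
  ∀ (A m : ℕ) (δ : ℝ), 0 < δ → ∃ (ε : ℝ) (L K : ℕ) (C : ℝ), 0 < ε ∧ 0 < C ∧ 1 ≤ L ∧
    ∀ (H : ℕ) (D E : MvPolynomial (Fin (m + 1)) ℤ) (i₀ : Fin (m + 1)), 1 ≤ H → SzM A H D →
    SzM A H E → D ≠ 0 →
    (∃ t₀ : Fin (m + 1) → ℂ, MvPolynomial.aeval t₀ D = 0 ∧ MvPolynomial.aeval t₀ E ≠ 0) →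
    ∃ (a : Fin m → ℕ) (R : MvPolynomial (Fin m) ℂ), (∀ j, a j ≤ L) ∧ R ≠ 0 ∧ R.totalDegree ≤ K ∧
      ∀ b : Fin m → ℤ, (∀ j, |b j| ≤ 2 * (L : ℤ) * H) →
        MvPolynomial.eval (fun j => ((b j : ℤ) : ℂ)) R ≠ 0 →
        ({s : ℤ | |s| ≤ (H : ℤ) ∧ (MvPolynomial.eval (pt i₀ a s b) D = 0 ∨
          (rad2 (MvPolynomial.eval (pt i₀ a s b) D) (MvPolynomial.eval (pt i₀ a s b) E) : ℝ)
            < (H : ℝ) ^ ε)}.ncard : ℝ) ≤ C * (H : ℝ) ^ δ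

/-- **Row LR3** (union bound; copy of `Helper22_COV/MU8.lean`; uses Sb1, Szb, Lr2Stmt). -/
def Lr3Stmt : Prop :=
  ∀ (A m : ℕ) (δ : ℝ), 0 < δ → ∃ ε C : ℝ, 0 < ε ∧ 0 < C ∧
    ∀ (H : ℕ) (D E : MvPolynomial (Fin (m + 1)) ℤ) (T : Fin (m + 1) → ℕ) (i₀ : Fin (m + 1)),
    (∀ i, 1 ≤ T i ∧ T i ≤ H ∧ T i₀ ≤ T i) → SzM A H D → SzM A H E → D ≠ 0 →
    (∃ t₀ : Fin (m + 1) → ℂ, MvPolynomial.aeval t₀ D = 0 ∧ MvPolynomial.aeval t₀ E ≠ 0) →
    ({t : Fin (m + 1) → ℤ | (∀ i, |t i| ≤ (T i : ℤ)) ∧ (MvPolynomial.eval t D = 0 ∨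
      (rad2 (MvPolynomial.eval t D) (MvPolynomial.eval t E) : ℝ) < (H : ℝ) ^ ε)}.ncard : ℝ) *
      (T i₀ : ℝ) ≤ C * (H : ℝ) ^ δ * ∏ i, (T i : ℝ)

/-! ## Block N -/

/-- **Row NPL** (the norm of a polynomial; medium). PROOF. b = `RingOfIntegers.basis K₀` (or any ℤ-basis), for x in 𝓞 K₀ let L(x) =
`Algebra.leftMulMatrix b x` (additive and multiplicative in x). `M = sum_l t^l L(coeff l G)`, a matrix over ℤ[t], `N = det M`.
(1) evaluation at integers t: `det (L (G(t))) = norm` (`Algebra.norm_eq_matrix_det`). (2) both sides are polynomial functions of t ∈ ℂⁿ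
and agree for t ∈ ℤⁿ ((1) and `Algebra.norm_eq_prod_embeddings`, `Algebra.coe_norm_int`), so they are equal
(`MvPolynomial.funext_set`, or Schwartz-Zippel). (3) N mapped to ℂ is the product over ψ of `G^ψ` (as polynomials, by (2));
`‖coefficients of a product‖ <= ` product of the sums of the norms of the coefficients; at most (A+1)^n coefficients each; number of
ψ = [K₀ : ℚ]. -/
def NplStmt : Prop :=
  ∀ (K₀ : Type) [Field K₀] [NumberField K₀] (A n : ℕ), ∃ A' : ℕ,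
    ∀ G : MvPolynomial (Fin n) (𝓞 K₀), ∃ N : MvPolynomial (Fin n) ℤ,
    (∀ t : Fin n → ℤ, MvPolynomial.eval t N =
      Algebra.norm ℤ (MvPolynomial.eval (fun i => ((t i : ℤ) : 𝓞 K₀)) G)) ∧
    (∀ t : Fin n → ℂ, MvPolynomial.aeval t N = ∏ ψ : K₀ →+* ℂ,
      MvPolynomial.eval₂ (ψ.comp (algebraMap (𝓞 K₀) K₀)) t G) ∧
    ∀ H : ℕ, 1 ≤ H → Sz0 A ((A : ℝ) * (H : ℝ) ^ A) G → SzM A' H N

/-- **Row SZA** (size of a fixed polynomial in the F i; easy-medium). PROOF. For Q over 𝓞 K₀ and ψ let |Q| be the sum of the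
norms of the coefficients of Q^ψ: submultiplicative, subadditive; `|F i| <= (k+1)^n H`. A monomial `c X^e` of P: `|c| prod |F i|^(e i)`,
total degree <= k * sum e i. Sum over the support of P. -/
def SzaStmt : Prop :=
  ∀ (P : MvPolynomial (Fin 7) ℤ) (k n : ℕ), ∃ A : ℕ, ∀ (K₀ : Type) [Field K₀] [NumberField K₀]
    (F : Fin 7 → MvPolynomial (Fin n) (𝓞 K₀)) (H : ℕ), 1 ≤ H → (∀ i, Sz0 k (H : ℝ) (F i)) →
    Sz0 A ((A : ℝ) * (H : ℝ) ^ A) (MvPolynomial.aeval F P)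

/-- **Row CR9** (one choice for finitely many fibres; medium; see the proof of CR7 (2), `Helper15_TTC/CR7.lean`). PROOF. For i with
d6 (a i) ≠ 0 nothing is required of j, m. For i with d6 (a i) = 0, `Dns`: as in CR7 (2), `(c_1, c_2) ≠ (0, 0)`, so at most one j has
`c_1 + j c_2 = 0`; r6 m = `(6 a_0)^6 prod over the 5 roots θ of F' of (F''(θ) + m F(θ))`, and for each θ at most one m gives 0 (F, F', F'' have no
common root): at most 5 values m. So some j <= n and some m <= 5n are good for all these i: `e7 j m (a i) ≠ 0`. For i with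
d6 (a i) ≠ 0 at most one s has `e7 + s d6 = 0`: some s <= n is good. -/
def Cr9Stmt : Prop :=
  ∀ (n : ℕ) (a : Fin n → Fin 7 → ℂ), (∀ i, a i 0 ≠ 0 ∧ (d6 (a i) ≠ 0 ∨ Dns (sext (a i)))) →
    ∃ j ≤ n, ∃ m ≤ 5 * n, ∃ s ≤ n, ∀ i, e7 j m (a i) + (s : ℂ) * d6 (a i) ≠ 0

/-- **Row EXV** (a place; medium). PROOF. Some prime P of 𝓞 K₀ contains p and x: otherwise x is a unit modulo p (`x z = 1 + p w`), norms:
`norm x * norm z ≡ 1` mod p (norm(1 + p w) ≡ 1: determinant; or: p ∣ norm x = ± absNorm (x), so a prime ideal factor of (x) contains p: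
`Ideal.absNorm`, `Ideal.span_singleton_absNorm`, factorization of (x), absNorm of a prime is a power of one prime number). Lying over:
a prime Q of 𝓞 K over P (`Ideal.exists_ideal_over_prime_of_isIntegral..`; 𝓞 K₀ → 𝓞 K; see `ex_place` in
`Helper40_TTC/PLC.lean`), v its place: v(p) < 1, v(x) < 1. y ∉ Q: otherwise y ∈ P, norm y ∈ P ∩ ℤ = pℤ (`Algebra.norm_mem..`, norm y is a multiple
of y in 𝓞 K₀). -/
def ExvStmt : Prop :=
  ∀ (K₀ K : Type) [Field K₀] [NumberField K₀] [Field K] [NumberField K] [Algebra K₀ K]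
    (x y : 𝓞 K₀) (p : ℕ), p.Prime → (p : ℤ) ∣ Algebra.norm ℤ x → ¬ (p : ℤ) ∣ Algebra.norm ℤ y →
    ∃ v : FinitePlace K, v (p : K) < 1 ∧ v (algebraMap K₀ K (x : K₀)) < 1 ∧
      v (algebraMap K₀ K (y : K₀)) = 1

/-- **Row SI9** (a root with simple reduction; copy of SI7, `Helper50_TTC/SI7.lean`; uses Na6, Na7, Cr7). PROOF. `e7 = 6 a_0 (..) r6`, all
factors have v <= 1, so v 6 = 1, v (a 0) = 1. O = {v <= 1}, κ, k algebraically closed over κ, ρ : O → k, kernel {v < 1}. NA6, NA7 for O → k: `d6 = 0`,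
`e7 ≠ 0` for the reduction, CR7 (1): Dns: a simple root z. F = a_0 prod (X - α_i) over K, α_i ∈ O (v(a_0) = 1, all v(a_i) <= 1: if v(α) > 1,
the term a_0 α^6 dominates). z = ρ α_i for some i. -/
def Si9Stmt : Prop :=
  ∀ (K : Type) [Field K] [NumberField K] (v : FinitePlace K) (a : Fin 7 → K) (j m : ℕ),
    (∀ i, v (a i) ≤ 1) → v (d6 a) < 1 → v (e7 j m a) = 1 → (sext a).Splits →
    ∃ α : K, (sext a).eval α = 0 ∧ v ((derivative (sext a)).eval α) = 1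

/-- **Row LO9** (copy of LO7, `Helper35_TTC/LO7.lean`; uses Na6, Na7, Cr7, Om7). -/
def Lo9Stmt : Prop :=
  ∀ (K : Type) [Field K] [NumberField K] (v : FinitePlace K) (a : Fin 7 → K) (α : K) (j m : ℕ),
    (∀ i, v (a i) ≤ 1) → v (d6 a) < 1 → v (e7 j m a) = 1 → (sext a).eval α = 0 →
    v ((derivative (sext a)).eval α) = 1 →
    KDD.CubeFree v.val (TTC.om a α) ∧ v (discr (TTC.om a α)) < 1

/-- **Row OM9** (copy of OM1, `Helper53_TTC/OM1.lean`; easy). -/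
def Om9Stmt : Prop :=
  ∀ (K : Type) [Field K] [NumberField K] (a : Fin 7 → K) (α : K), (∀ i, IsIntegral ℤ (a i)) →
    a 0 ≠ 0 → (sext a).eval α = 0 →
    (TTC.om a α).Monic ∧ (TTC.om a α).natDegree = 5 ∧ ∀ n, IsIntegral ℤ ((TTC.om a α).coeff n)

/-- **Row HT9** (copy of HT6, `Helper3_TTC/HT6.lean`; uses Na6; easy-medium). PROOF. `|a_0|` may be small, so do not bound α but
`β = a_0 α`: root of `x^6 + a_1 x^5 + a_2 a_0 x^4 + .. + a_6 a_0^5`, `|β| <= 1 + M^6`. `a_0^(6-j) T_j = sum_(i >= j) binom(i, j) a_(6-i) β^(i-j) a_0^(6-i)`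
is at most `64 * 7 M^7 (1 + M^6)^6`, and the coefficient `T_j T_1^(j-2) a_0^(4(j-1))` of om is `(a_0^(6-j) T_j) (a_0^5 T_1)^(j-2)` (see OM1). So
all coefficients of om are at most `A₀ (4M)^(A₀)` at every embedding; then as HT6. -/
def Ht9Stmt : Prop :=
  ∃ A : ℕ, ∀ (K : Type) [Field K] [NumberField K] (a : Fin 7 → K) (α : K) (M : ℕ), 1 ≤ M →
    (∀ (ψ : K →+* ℂ) (i : Fin 7), ‖ψ (a i)‖ ≤ M) → a 0 ≠ 0 → (sext a).eval α = 0 →
    SZT.lH (TTC.om a α) ≤ (Module.finrank ℚ K : ℝ) * (A * Real.log (4 * M))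

/-- **Row PG9** (copy of PG7, `Helper51_TTC/PG7.lean`; easy). -/
def Pg9Stmt : Prop :=
  ∀ (K : Type) [Field K] [NumberField K] (a : Fin 7 → K) (P : Finset ℕ)
    (W : FinitePlace K → Prop), a 0 ≠ 0 → (sext a).Splits →
    (∀ p ∈ P, ∃ (v : FinitePlace K) (α : K), v (p : K) < 1 ∧ W v ∧ (sext a).eval α = 0 ∧
      v ((derivative (sext a)).eval α) = 1) →
    ∃ α : K, (sext a).eval α = 0 ∧ ∃ P' ⊆ P, ∑ p ∈ P, Real.log p ≤ 6 * ∑ p ∈ P', Real.log p ∧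
      ∀ p ∈ P', ∃ v : FinitePlace K, v (p : K) < 1 ∧ W v ∧
        v ((derivative (sext a)).eval α) = 1

/-- **Row CV9** (copy of CVT, `Helper4_COV/CVT.lean`; uses CVM, CVS; easy-medium). PROOF. ψ extends to `AlgebraicClosure K → ℂ`
(`IsAlgClosed.lift` for ψ). -/
def Cv9Stmt : Prop :=
  ∀ (K : Type) [Field K] [NumberField K] (n : ℕ) (a : Fin 7 → K) (α : K), a 0 ≠ 0 →
    Squarefree (sext a) → (sext a).eval α = 0 → Cov n (acl (TTC.om a α)) →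
    ∀ ψ : K →+* ℂ, Cov n ((sext a).map ψ)

/-- The conclusion of the theorem for the curve `y^2 = F(x)`, F = sext a, over K₀. -/
def Good9 {K₀ : Type} [Field K₀] (d B : ℕ) (a : Fin 7 → 𝓞 K₀) : Prop :=
  (sext fun i => ((a i : 𝓞 K₀) : K₀)).natDegree = 6 ∧
  Squarefree (sext fun i => ((a i : 𝓞 K₀) : K₀)) ∧
  ((∀ ψ : K₀ →+* ℂ, Cov B (sext fun i => ψ ((a i : 𝓞 K₀) : K₀))) ∨
  ∀ (K : Type) [Field K] [NumberField K] [Algebra K₀ K], Module.finrank ℚ K ≤ d →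
    (sext fun i => algebraMap K₀ K ((a i : 𝓞 K₀) : K₀)).Splits →
    ∃ α : K, (sext fun i => algebraMap K₀ K ((a i : 𝓞 K₀) : K₀)).eval α = 0 ∧
    ∀ Y : UBT.OddCurve K, Y.f = TTC.om (fun i => algebraMap K₀ K ((a i : 𝓞 K₀) : K₀)) α →
    ∀ c : Y.Jac, IsOfFinOrder c → orderOf c ≤ B)

/-- **Row GD9** (many primes give bounded torsion; uses Na6, Na7, Cr6, KDC, EXV, SI9, LO9, OM9, HT9, PG9, Pl6, CV9; medium; see
`Helper60_COV/FA8.lean`). PROOF. A from HT9; B from KDC for d and `ε' = ε/(18 (A+1)(d+1))`. `d6 a ≠ 0` (norm ≠ 0): as in SF6 a_0 ≠ 0, degree 6,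
squarefree over K₀ (NA6 for K₀ → algebraic closure or ℂ, CR6). Suppose `Cov B` fails for one ψ. Let K be given, a' = image of a in K. P = the
primes of rad2. For p ∈ P: EXV with `x = d6 a`, `y = e7 j m a + s d6 a`: v(p) < 1, v(d6 a') < 1 (NA6), v(e7 j m a' + s d6 a') = 1, so
`v(e7 j m a') = 1` (nonarchimedean, v(s) <= 1, v(d6 a') < 1); v(a' i) <= 1 (integral). Take `W v := v(d6 a') < 1 ∧ v(e7 j m a') = 1`. SI9, PG9: α, P';
LO9 and PL6 (Q v := CubeFree and v(discr) < 1): S with `sum_(P') log p <= sum_S log Nv`. OM9, HT9 (`‖ψ' (a' i)‖ <= M`: restrict ψ' to K₀):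
`lH <= d A log(4M) <= 3 d A log M` (M >= 2), `ε log M <= log rad2 = sum_P log p <= 6 sum_(P')`: `ε' lH <= sum_S log Nv`. KDC: `orderOf c <= B` or
`Cov B (acl Y.f)`; the second gives (CV9 for an extension ψ' : K → ℂ of ψ, K/K₀ algebraic) `Cov B` for ψ: contradiction. -/
def Gd9Stmt : Prop :=
  ∀ (K₀ : Type) [Field K₀] [NumberField K₀] (d : ℕ) (ε : ℝ), 0 < ε → ∃ B : ℕ,
    ∀ (a : Fin 7 → 𝓞 K₀) (M j m s : ℕ), 2 ≤ M →
    (∀ (ψ : K₀ →+* ℂ) (i : Fin 7), ‖ψ ((a i : 𝓞 K₀) : K₀)‖ ≤ M) → Algebra.norm ℤ (d6 a) ≠ 0 →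
    (M : ℝ) ^ ε ≤ (rad2 (Algebra.norm ℤ (d6 a))
      (Algebra.norm ℤ (e7 j m a + (s : 𝓞 K₀) * d6 a)) : ℝ) →
    Good9 d B a

/-- the fibre over t at the embedding ψ -/
noncomputable def fib9 {K₀ : Type} [Field K₀] {n : ℕ} (F : Fin 7 → MvPolynomial (Fin n) (𝓞 K₀))
    (ψ : K₀ →+* ℂ) (t : Fin n → ℂ) : Fin 7 → ℂ :=
  fun i => MvPolynomial.eval₂ (ψ.comp (algebraMap (𝓞 K₀) K₀)) t (F i)

/-- the algebraic form of the hypothesis on the family -/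
def Nodal9 {K₀ : Type} [Field K₀] {n : ℕ} (F : Fin 7 → MvPolynomial (Fin n) (𝓞 K₀)) : Prop :=
  (∃ (ψ : K₀ →+* ℂ) (t : Fin n → ℂ), d6 (fib9 F ψ t) ≠ 0) ∧
  ∃ t : Fin n → ℂ, (∀ ψ : K₀ →+* ℂ, fib9 F ψ t 0 ≠ 0 ∧
    (d6 (fib9 F ψ t) ≠ 0 ∨ Dns (sext (fib9 F ψ t)))) ∧ ∃ ψ : K₀ →+* ℂ, d6 (fib9 F ψ t) = 0

/-- **Row MU9** (the theorem; uses Na6, Na7, LR3, NPL, SZA, CR9, GD9; medium). PROOF. n = [K₀ : ℚ]. For j <= n, m' <= 5n, s <= n let
`P_D = d6 X`, `P_(j,m',s) = e7 j m' X + s d6 X` in `MvPolynomial (Fin 7) ℤ` (X i the variables); `d6 F = aeval F P_D`,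
`e7 j m' F + s d6 F = aeval F P` (NA6, NA7 for the ring homomorphism `aeval F`). A = max of the A of SZA, A' from NPL for A; ε, C from LR3 for A', δ;
B from GD9 for d and `ε/(k+2)`. Let H, F be given; CR9 for the fibres over t₀ (the embeddings numbered by Fin n): j, m', s. D, E = the N of NPL
for `d6 F`, `e7 j m' F + s d6 F`: D ≠ 0 (the product over ψ of the nonzero polynomials (d6 F)^ψ is not zero somewhere; (d6 F) ≠ 0 by the first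
part of Nodal9, NA6), `D(t₀) = prod d6 (fib9 F ψ t₀) = 0`, `E(t₀) ≠ 0` (NPL (2), NA6, NA7). LR3. For t outside that set and a = F(t): `norm (d6 a) = D(t) ≠ 0`, `rad2 .. >= H^ε`.
`M = (k+1)^(m+1) H^(k+1) + 1`: `‖ψ (a i)‖ <= M`; for `H >= H₀ = (k+1)^(m+1) + 2`: `2 <= M <= H^(k+2)`, `M^(ε/(k+2)) <= H^ε`: GD9. For H < H₀: the number of all points
is at most `3^(m+1) prod T i`, `T i₀ <= H₀`. -/
def Mu9Stmt : Prop :=
  ∀ (K₀ : Type) [Field K₀] [NumberField K₀] (d k m : ℕ) (δ : ℝ), 0 < δ →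
    ∃ (B : ℕ) (C : ℝ), 0 < C ∧ ∀ (H : ℕ) (F : Fin 7 → MvPolynomial (Fin (m + 1)) (𝓞 K₀))
    (T : Fin (m + 1) → ℕ) (i₀ : Fin (m + 1)),
    (∀ i, 1 ≤ T i ∧ T i ≤ H ∧ T i₀ ≤ T i) → (∀ i, Sz0 k (H : ℝ) (F i)) → Nodal9 F →
    ({t : Fin (m + 1) → ℤ | (∀ i, |t i| ≤ (T i : ℤ)) ∧
        ¬ Good9 d B (fun i => MvPolynomial.eval (fun l => ((t l : ℤ) : 𝓞 K₀)) (F i))}.ncard : ℝ) *
      (T i₀ : ℝ) ≤ C * (H : ℝ) ^ δ * ∏ i, (T i : ℝ)

/-- **Row GB9** (copy of GBX, `Helper34_COV/GBX.lean`; uses GEL, Szb). PROOF. R from GEL; `aeval F R ∈ (𝓞 K₀)[t]` is not 0 (algebraic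
independence), so its image under ψ is not 0; it vanishes at the t of the set. -/
def Gb9Stmt : Prop :=
  ∀ (K₀ : Type) [Field K₀] [NumberField K₀] (n k m : ℕ), ∃ M : ℕ,
    ∀ (F : Fin 7 → MvPolynomial (Fin (m + 1)) (𝓞 K₀)) (T : Fin (m + 1) → ℕ) (i₀ : Fin (m + 1))
    (ψ : K₀ →+* ℂ), (∀ i, 1 ≤ T i ∧ T i₀ ≤ T i) → (∀ i, (F i).totalDegree ≤ k) →
    AlgebraicIndependent ℤ F →
    {t : Fin (m + 1) → ℤ | (∀ i, |t i| ≤ (T i : ℤ)) ∧ Cov n (sext fun i =>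
      ψ ((MvPolynomial.eval (fun l => ((t l : ℤ) : 𝓞 K₀)) (F i) : 𝓞 K₀) : K₀))}.ncard * T i₀
      ≤ M * ∏ i, T i

end Pool.Agent.COV
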